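import Mathlib

/-!
A backtracking refutation checker for colourings with six colours, meant to be evaluated by the
kernel. A state is one natural number: bit `512 c + v` says that ray `v` does not have colour `c`,
bit `3072 + 512 c + v` says that ray `v` has colour `c`.
-/

set_option autoImplicit false

namespace Pool.Agent.Helper438.Sph

/-- the six bits `0, 512, ..., 2560` -/
def KK : ℕ := 2 ^ 0 + 2 ^ 512 + 2 ^ 1024 + 2 ^ 1536 + 2 ^ 2048 + 2 ^ 2560

/-- the block of 512 bits number `i` -/
def blk (x i : ℕ) : ℕ := Nat.land (Nat.shiftRight x (Nat.mul 512 i)) (Nat.sub (Nat.pow 2 512) 1)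

/-- the state after giving colour `c` to ray `v`, where `a` is the mask of the neighbours -/
def asg (S a v c : ℕ) : ℕ :=
  Nat.lor (Nat.lor S (Nat.shiftLeft a (Nat.mul 512 c)))
    (Nat.shiftLeft 1 (Nat.add (Nat.add 3072 (Nat.mul 512 c)) v))

/-- push the child for colour `c` unless it is dead -/
def pushc (S a v c : ℕ) (x : ℕ) (st : List ℕ) : List ℕ :=
  cond (Nat.beq (Nat.land (Nat.shiftRight x (Nat.mul 512 c)) 1) 1) st (asg S a v c :: st)

/-- Evaluate `n` before passing it on. -/
def force {α : Type} (n : ℕ) (k : ℕ → α) : α :=
  Nat.rec (motive := fun _ => α) (k 0) (fun m _ => k (Nat.succ m)) n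

/-- one step; a token is `8 v + t`: `t < 6` forced colour, `t = 6` branching or dead,
`t = 7` followed by another token: a nogood. -/
noncomputable def run (B H : ℕ) (fuel : ℕ) : ℕ → List ℕ → List ℕ :=
  Nat.rec (motive := fun _ => ℕ → List ℕ → List ℕ) (fun _ st => st)
    (fun _ go tok st =>
      List.rec (motive := fun _ => List ℕ) st
        (fun S rest _ =>
          force (Nat.mod tok 4096) fun t =>
          force (Nat.shiftRight tok 12) fun tok' =>
          force (Nat.div t 8) fun v =>
          force (Nat.mod t 8) fun c =>
          cond (Nat.ble 6 c)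
            (cond (Nat.beq c 6)
              (force (Nat.shiftRight S v) fun x =>
                force (blk B v) fun a =>
                go tok' (pushc S a v 0 x (pushc S a v 1 x (pushc S a v 2 x (pushc S a v 3 x
                  (pushc S a v 4 x
                    (cond (cond (Nat.beq (blk S 4) (blk S 5))
                        (Nat.beq (blk S 10) (blk S 11)) false) rest (pushc S a v 5 x rest))))))))
              (force (Nat.mod tok' 4096) fun u =>
                force (Nat.div u 8) fun w =>
                force (Nat.mod u 8) fun d =>
                force (blk H v) fun m =>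
                cond (Nat.beq (Nat.lor (Nat.pow 2 w) (Nat.land m (blk S (Nat.add 6 d)))) m)
                  (cond (Nat.ble 6 d) st
                  (go (Nat.shiftRight tok' 12)
                    (Nat.lor S (Nat.shiftLeft 1 (Nat.add (Nat.mul 512 d) w)) :: rest))) st))
            (cond (Nat.beq (Nat.lor (Nat.land (Nat.shiftRight S v) KK) (Nat.pow 2 (Nat.mul 512 c))) KK)
              (force (asg S (blk B v) v c) fun S' => go tok' (S' :: rest)) st))
        st) fuel

/-- run through chunks -/
noncomputable def runs (B H : ℕ) (l : List (ℕ × ℕ)) : List ℕ → List ℕ :=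
  List.rec (motive := fun _ => List ℕ → List ℕ) (fun st => st)
    (fun c _ go st => go (run B H c.1 c.2 st)) l

end Pool.Agent.Helper438.Sph
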