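import Pool.Agent.Helper438.Sph.Geo

/-! (Copied from helper144.) -/

set_option autoImplicit false

namespace Pool.Agent.Helper438.Sph

/-! ### Induction on the dimension -/

/-- `ℝ^d` as the hyperplane `x 0 = 0` of `ℝ^(d+1)`. -/
noncomputable def emb {d : ℕ} (x : EuclideanSpace ℝ (Fin d)) : EuclideanSpace ℝ (Fin (d + 1)) :=
  WithLp.toLp 2 (Fin.cons (0 : ℝ) (fun i => x i))

theorem inner_emb {d : ℕ} (x y : EuclideanSpace ℝ (Fin d)) :
    inner ℝ (emb x) (emb y) = inner ℝ x y := by
  simp only [emb, PiLp.inner_apply, Fin.sum_univ_succ]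
  simp

/-- The pole. -/
noncomputable def pole (d : ℕ) : EuclideanSpace ℝ (Fin (d + 1)) := EuclideanSpace.single 0 1

theorem inner_pole {d : ℕ} (x : EuclideanSpace ℝ (Fin d)) : inner ℝ (emb x) (pole d) = 0 := by
  rw [pole, EuclideanSpace.inner_single_right]
  simp [emb]

noncomputable def embS {d : ℕ} (x : Metric.sphere (0 : EuclideanSpace ℝ (Fin d)) 1) :
    Metric.sphere (0 : EuclideanSpace ℝ (Fin (d + 1))) 1 :=
  ⟨emb x, by
    rw [mem_sphere_zero_iff_norm]
    have h : ‖(x : EuclideanSpace ℝ (Fin d))‖ = 1 := norm_eq_of_mem_sphere x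
    have h2 : ‖emb (x : EuclideanSpace ℝ (Fin d))‖ ^ 2 = 1 := by
      rw [← real_inner_self_eq_norm_sq, inner_emb, real_inner_self_eq_norm_sq, h]
      norm_num
    have h3 := norm_nonneg (emb (x : EuclideanSpace ℝ (Fin d)))
    nlinarith⟩

noncomputable def poleS (d : ℕ) : Metric.sphere (0 : EuclideanSpace ℝ (Fin (d + 1))) 1 :=
  ⟨pole d, by
    rw [mem_sphere_zero_iff_norm]
    simp [pole]⟩

/-- One more dimension needs one more colour. -/
theorem colorable_pred {d n : ℕ} (h : (orthGraph (d + 1)).Colorable n) :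
    1 ≤ n ∧ (orthGraph d).Colorable (n - 1) := by
  classical
  obtain ⟨C⟩ := h
  have hn : 1 ≤ n := by
    have := (C (poleS d)).isLt
    omega
  refine ⟨hn, ?_⟩
  have hne : ∀ x : Metric.sphere (0 : EuclideanSpace ℝ (Fin d)) 1,
      C (embS x) ≠ C (poleS d) := fun x =>
    C.valid ((adj_iff _ _).2 (inner_pole (x : EuclideanSpace ℝ (Fin d))))
  let C' : (orthGraph d).Coloring {c : Fin n // c ≠ C (poleS d)} :=
    SimpleGraph.Coloring.mk (fun x => ⟨C (embS x), hne x⟩) (by
      intro x y hxy h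
      refine C.valid ?_ (congrArg Subtype.val h)
      rw [adj_iff] at hxy ⊢
      change inner ℝ (emb (x : EuclideanSpace ℝ (Fin d))) (emb (y : EuclideanSpace ℝ (Fin d))) = 0
      rw [inner_emb, hxy])
  have h := C'.colorable
  have hc : Fintype.card {c : Fin n // c ≠ C (poleS d)} = n - 1 := by
    rw [Fintype.card_subtype_compl]
    simp
  rwa [hc] at h

/-- Lower bounds propagate from dimension 4 to all higher dimensions. -/
theorem lower_of_four {m : ℕ} (h4 : ∀ n, (orthGraph 4).Colorable n → 4 + m ≤ n) (d : ℕ)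
    (hd : 4 ≤ d) : ∀ n, (orthGraph d).Colorable n → d + m ≤ n := by
  induction d, hd using Nat.le_induction with
  | base => exact h4
  | succ d hd ih =>
    intro n hn
    obtain ⟨h1, h2⟩ := colorable_pred hn
    have := ih _ h2
    omega

end Pool.Agent.Helper438.Sph
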