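import Pool.Agent.Helper438.Sph.Snd

/-!
The orthogonality graph on the unit sphere, colourings of the rays, and the transfer of
unavoidable patterns by isometries. (The first part is copied from helper144.)
-/

set_option autoImplicit false

namespace Pool.Agent.Helper438.Sph

/-- The graph on the unit sphere of `ℝ^d` in which two points are adjacent if and only if they are
at distance exactly `√2`. -/
def orthGraph (d : ℕ) : SimpleGraph (Metric.sphere (0 : EuclideanSpace ℝ (Fin d)) 1) where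
  Adj x y := dist x y = √2
  symm := ⟨fun x y h => by rw [dist_comm]; exact h⟩
  loopless := ⟨fun x h => by
    rw [dist_self] at h
    have : (0 : ℝ) < √2 := Real.sqrt_pos.2 two_pos
    linarith⟩

theorem adj_iff {d : ℕ} (x y : Metric.sphere (0 : EuclideanSpace ℝ (Fin d)) 1) :
    (orthGraph d).Adj x y ↔ inner ℝ (x : EuclideanSpace ℝ (Fin d)) y = 0 := by
  have hx : ‖(x : EuclideanSpace ℝ (Fin d))‖ = 1 := norm_eq_of_mem_sphere x
  have hy : ‖(y : EuclideanSpace ℝ (Fin d))‖ = 1 := norm_eq_of_mem_sphere y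
  change dist (x : EuclideanSpace ℝ (Fin d)) y = √2 ↔ _
  rw [dist_eq_norm]
  have h := norm_sub_sq_real (x : EuclideanSpace ℝ (Fin d)) y
  rw [hx, hy] at h
  have h0 := norm_nonneg ((x : EuclideanSpace ℝ (Fin d)) - y)
  constructor
  · intro h1
    rw [h1, Real.sq_sqrt two_pos.le] at h
    linarith
  · intro h1
    rw [h1] at h
    rw [← Real.sqrt_sq h0, h]
    norm_num

/-- The unit vector in the direction of `w`. -/
noncomputable def uv {d : ℕ} (w : EuclideanSpace ℝ (Fin d)) (hw : w ≠ 0) :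
    Metric.sphere (0 : EuclideanSpace ℝ (Fin d)) 1 :=
  ⟨‖w‖⁻¹ • w, by
    rw [mem_sphere_zero_iff_norm, norm_smul, norm_inv, norm_norm]
    exact inv_mul_cancel₀ (norm_ne_zero_iff.2 hw)⟩

/-- `ℝ^4` -/
abbrev E4 : Type := EuclideanSpace ℝ (Fin 4)

/-- integer vectors -/
abbrev V4 : Type := ℤ × ℤ × ℤ × ℤ

/-- inner product -/
def dot (v w : V4) : ℤ :=
  v.1 * w.1 + v.2.1 * w.2.1 + v.2.2.1 * w.2.2.1 + v.2.2.2 * w.2.2.2

/-- An integer vector as a real vector. -/
noncomputable def toE (v : V4) : E4 :=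
  !₂[(v.1 : ℝ), (v.2.1 : ℝ), (v.2.2.1 : ℝ), (v.2.2.2 : ℝ)]

theorem inner_toE (v w : V4) : inner ℝ (toE v) (toE w) = ((dot v w : ℤ) : ℝ) := by
  simp only [toE, dot, PiLp.inner_apply, Fin.sum_univ_four]
  simp
  ring

/-- Colourings of the rays of `ℝ^4` with six colours. -/
structure Good (F : E4 → Fin 6) : Prop where
  orth : ∀ x y : E4, x ≠ 0 → y ≠ 0 → inner ℝ x y = 0 → F x ≠ F y
  ray : ∀ (c : ℝ) (x : E4), c ≠ 0 → x ≠ 0 → F (c • x) = F x

theorem exists_good (h : (orthGraph 4).Colorable 6) : ∃ F : E4 → Fin 6, Good F := by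
  classical
  obtain ⟨C⟩ := h
  let rep : Submodule ℝ E4 → Metric.sphere (0 : E4) 1 := fun L =>
    if h : ∃ u : Metric.sphere (0 : E4) 1, (u : E4) ∈ L then h.choose
    else uv (EuclideanSpace.single 0 1) (by simp)
  have hrep : ∀ x : E4, x ≠ 0 → ((rep (Submodule.span ℝ {x})) : E4) ∈ Submodule.span ℝ {x} := by
    intro x hx
    have h : ∃ u : Metric.sphere (0 : E4) 1, (u : E4) ∈ Submodule.span ℝ {x} :=
      ⟨uv x hx, Submodule.smul_mem _ _ (Submodule.mem_span_singleton_self x)⟩
    simp only [rep]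
    rw [dif_pos h]
    exact h.choose_spec
  refine ⟨fun x => C (rep (Submodule.span ℝ {x})), ⟨?_, ?_⟩⟩
  · intro x y hx hy hxy
    apply C.valid
    rw [adj_iff]
    obtain ⟨a, ha⟩ := Submodule.mem_span_singleton.1 (hrep x hx)
    obtain ⟨b, hb⟩ := Submodule.mem_span_singleton.1 (hrep y hy)
    rw [← ha, ← hb, real_inner_smul_left, real_inner_smul_right, hxy]
    simp
  · intro c x hc _
    have : Submodule.span ℝ {c • x} = Submodule.span ℝ {x} :=
      Submodule.span_singleton_smul_eq (IsUnit.mk0 c hc) x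
    change C (rep (Submodule.span ℝ {c • x})) = C (rep (Submodule.span ℝ {x}))
    rw [this]

theorem good_comp {F : E4 → Fin 6} (hF : Good F) (g : E4 →ₗᵢ[ℝ] E4) : Good (fun x => F (g x)) := by
  have h0 : ∀ x : E4, x ≠ 0 → g x ≠ 0 := by
    intro x hx h
    apply hx
    rw [← norm_eq_zero, ← g.norm_map, h, norm_zero]
  refine ⟨fun x y hx hy hxy => ?_, fun c x hc hx => ?_⟩
  · refine hF.orth _ _ (h0 x hx) (h0 y hy) ?_
    rw [g.inner_map_map, hxy]
  · change F (g (c • x)) = F (g x)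
    rw [map_smul]
    exact hF.ray c _ hc (h0 x hx)

theorem exists_isom {ι : Type} [Fintype ι] [DecidableEq ι] (u v : ι → E4)
    (h : ∀ i j, inner ℝ (u i) (u j) = inner ℝ (v i) (v j)) :
    ∃ g : E4 →ₗᵢ[ℝ] E4, ∀ i, g (u i) = v i := by
  let A : (ι → ℝ) →ₗ[ℝ] E4 := Fintype.linearCombination ℝ u
  let B : (ι → ℝ) →ₗ[ℝ] E4 := Fintype.linearCombination ℝ v
  have hAB : ∀ c, ‖A c‖ = ‖B c‖ := by
    intro c
    have h2 : ‖A c‖ ^ 2 = ‖B c‖ ^ 2 := by
      rw [← real_inner_self_eq_norm_sq, ← real_inner_self_eq_norm_sq]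
      simp only [A, B, Fintype.linearCombination_apply, sum_inner, inner_sum,
        real_inner_smul_left, real_inner_smul_right, h]
    have h3 := norm_nonneg (A c)
    have h4 := norm_nonneg (B c)
    exact (sq_eq_sq₀ h3 h4).1 h2
  obtain ⟨s, hs⟩ := A.rangeRestrict.exists_rightInverse_of_surjective
    (LinearMap.range_eq_top.2 A.surjective_rangeRestrict)
  have hs' : ∀ y : LinearMap.range A, A (s y) = y := by
    intro y
    have := congrArg (fun f => ((f y : LinearMap.range A) : E4)) hs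
    simpa using this
  let L : LinearMap.range A →ₗᵢ[ℝ] E4 :=
    { toLinearMap := B ∘ₗ s
      norm_map' := fun y => by
        change ‖B (s y)‖ = ‖y‖
        rw [← hAB, hs' y]
        rfl }
  refine ⟨L.extend, fun i => ?_⟩
  have hAi : A (Pi.single i 1) = u i := by
    simp [A, Fintype.linearCombination_apply_single]
  have hBi : B (Pi.single i 1) = v i := by
    simp [B, Fintype.linearCombination_apply_single]
  have hmem : u i ∈ LinearMap.range A := ⟨Pi.single i 1, hAi⟩
  have h1 := L.extend_apply ⟨u i, hmem⟩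
  change L.extend (u i) = B (s ⟨u i, hmem⟩) at h1
  rw [h1, ← hBi, ← sub_eq_zero, ← map_sub, ← norm_eq_zero, ← hAB, map_sub, hs' _, hAi]
  simp

/-- relation between pairs of vectors: same angle, same sign -/
def rel (p q p' q' : V4) : Bool :=
  decide (dot p p' * dot p p' * (dot q q * dot q' q') = dot q q' * dot q q' * (dot p p * dot p' p')) &&
    decide (0 < dot p p' * dot q q')

/-- The two lists of vectors have the same angles. -/
def gram : List V4 → List V4 → Bool
  | [], [] => true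
  | p :: P, q :: Q => decide (0 < dot p p) && decide (0 < dot q q) &&
      (List.zip P Q).all (fun r => rel p q r.1 r.2) && gram P Q
  | _, _ => false

/-- all vectors in the list have the same colour -/
def Mono (F : E4 → Fin 6) (P : List V4) : Prop := ∀ p ∈ P, ∀ q ∈ P, F (toE p) = F (toE q)

/-- No good colouring makes `P` monochromatic. -/
def RefP (P : List V4) : Prop := ∀ F, Good F → ¬ Mono F P

theorem gram_spec : ∀ (P Q : List V4), gram P Q = true → P.length = Q.length ∧
    (∀ i (h1 : i < P.length) (h2 : i < Q.length), 0 < dot P[i] P[i] ∧ 0 < dot Q[i] Q[i]) ∧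
    (∀ i j (h1 : i < P.length) (h2 : i < Q.length) (h3 : j < P.length) (h4 : j < Q.length), i < j →
      rel P[i] Q[i] P[j] Q[j] = true)
  | [], [], _ => ⟨rfl, fun i h => absurd h (Nat.not_lt_zero _), fun i j h => absurd h (Nat.not_lt_zero _)⟩
  | p :: P, q :: Q, h => by
    unfold gram at h
    simp only [Bool.and_eq_true, decide_eq_true_eq, List.all_eq_true] at h
    obtain ⟨⟨⟨hp, hq⟩, hz⟩, hg⟩ := h
    obtain ⟨hl, h1, h2⟩ := gram_spec P Q hg
    refine ⟨by simp [hl], ?_, ?_⟩
    · intro i hi1 hi2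
      cases i with
      | zero => exact ⟨hp, hq⟩
      | succ i => exact h1 i (by simpa using hi1) (by simpa using hi2)
    · intro i j hi1 hi2 hj1 hj2 hij
      cases j with
      | zero => omega
      | succ j =>
        cases i with
        | zero =>
          refine hz (P[j]'(by simpa using hj1), Q[j]'(by simpa using hj2)) ?_
          rw [List.mem_iff_getElem]
          exact ⟨j, by simp at hj1 hj2 ⊢; omega, by simp⟩
        | succ i =>
          exact h2 i j (by simpa using hi1) (by simpa using hi2) (by simpa using hj1)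
            (by simpa using hj2) (by omega)
  | [], _ :: _, h => by unfold gram at h; exact Bool.noConfusion h
  | _ :: _, [], h => by unfold gram at h; exact Bool.noConfusion h

theorem rel_inner {p q p' q' : V4} (hp : 0 < dot p p) (hq : 0 < dot q q) (hp' : 0 < dot p' p')
    (hq' : 0 < dot q' q') (h : rel p q p' q' = true) :
    inner ℝ (‖toE p‖⁻¹ • toE p) (‖toE p'‖⁻¹ • toE p') =
      inner ℝ (‖toE q‖⁻¹ • toE q) (‖toE q'‖⁻¹ • toE q') := by
  unfold rel at h
  simp only [Bool.and_eq_true, decide_eq_true_eq] at h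
  obtain ⟨h1, h2⟩ := h
  have nsq : ∀ v : V4, ‖toE v‖ ^ 2 = ((dot v v : ℤ) : ℝ) := fun v => by
    rw [← real_inner_self_eq_norm_sq, inner_toE]
  have npos : ∀ v : V4, 0 < dot v v → 0 < ‖toE v‖ := by
    intro v hv
    have h3 : 0 < ‖toE v‖ ^ 2 := by rw [nsq]; exact_mod_cast hv
    rcases (norm_nonneg (toE v)).eq_or_lt with h0 | h0
    · rw [← h0] at h3; norm_num at h3
    · exact h0
  rw [real_inner_smul_left, real_inner_smul_right, real_inner_smul_left, real_inner_smul_right,
    inner_toE, inner_toE]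
  have a1 := npos p hp
  have a2 := npos q hq
  have a3 := npos p' hp'
  have a4 := npos q' hq'
  have e1 := nsq p
  have e2 := nsq q
  have e3 := nsq p'
  have e4 := nsq q'
  set a := ‖toE p‖
  set b := ‖toE q‖
  set a' := ‖toE p'‖
  set b' := ‖toE q'‖
  set x : ℝ := ((dot p p' : ℤ) : ℝ) with hx
  set y : ℝ := ((dot q q' : ℤ) : ℝ) with hy
  have k1 : x * x * (b ^ 2 * b' ^ 2) = y * y * (a ^ 2 * a' ^ 2) := by
    rw [e1, e2, e3, e4, hx, hy]; exact_mod_cast h1
  have k2 : 0 < x * y := by rw [hx, hy]; exact_mod_cast h2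
  have k3 : (x * (b * b')) ^ 2 = (y * (a * a')) ^ 2 := by ring_nf; ring_nf at k1; linarith
  have k4 : x * (b * b') = y * (a * a') := by
    rcases sq_eq_sq_iff_eq_or_eq_neg.1 k3 with h | h
    · exact h
    · exfalso
      have h5 : 0 < (x * (b * b')) * (y * (a * a')) := by
        have : (x * (b * b')) * (y * (a * a')) = (x * y) * (b * b' * (a * a')) := by ring
        rw [this]; positivity
      rw [h] at h5
      nlinarith [sq_nonneg (y * (a * a'))]
  field_simp
  linarith

theorem mono_transfer {F : E4 → Fin 6} (hF : Good F) {P Q : List V4} (hg : gram P Q = true)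
    (hP : RefP P) : ¬ Mono F Q := by
  intro hQ
  obtain ⟨hl, h1, h2⟩ := gram_spec P Q hg
  let u : Fin P.length → E4 := fun i => ‖toE P[i]‖⁻¹ • toE P[i]
  let v : Fin P.length → E4 := fun i => ‖toE (Q[i.val]'(hl ▸ i.isLt))‖⁻¹ • toE (Q[i.val]'(hl ▸ i.isLt))
  have nsq : ∀ v : V4, ‖toE v‖ ^ 2 = ((dot v v : ℤ) : ℝ) := fun v => by
    rw [← real_inner_self_eq_norm_sq, inner_toE]
  have nne : ∀ v : V4, 0 < dot v v → ‖toE v‖ ≠ 0 := by
    intro v hv h0
    have h3 := nsq v
    rw [h0] at h3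
    have h4 : (0 : ℝ) < ((dot v v : ℤ) : ℝ) := by exact_mod_cast hv
    rw [← h3] at h4
    norm_num at h4
  have hself : ∀ w : V4, 0 < dot w w → inner ℝ (‖toE w‖⁻¹ • toE w) (‖toE w‖⁻¹ • toE w) = (1 : ℝ) := by
    intro w hw
    rw [real_inner_smul_left, real_inner_smul_right, real_inner_self_eq_norm_sq]
    have := nne w hw
    field_simp
  have huv : ∀ i j, inner ℝ (u i) (u j) = inner ℝ (v i) (v j) := by
    intro i j
    have hi := h1 i.val i.isLt (hl ▸ i.isLt)
    have hj := h1 j.val j.isLt (hl ▸ j.isLt)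
    rcases lt_trichotomy i.val j.val with h | h | h
    · exact rel_inner hi.1 hi.2 hj.1 hj.2 (h2 i.val j.val i.isLt (hl ▸ i.isLt) j.isLt (hl ▸ j.isLt) h)
    · have : i = j := Fin.ext h
      subst this
      exact (hself _ hi.1).trans (hself _ hi.2).symm
    · rw [real_inner_comm, real_inner_comm (v j)]
      exact rel_inner hj.1 hj.2 hi.1 hi.2
        (h2 j.val i.val j.isLt (hl ▸ j.isLt) i.isLt (hl ▸ i.isLt) h)
  obtain ⟨g, hgg⟩ := exists_isom u v huv
  have key : ∀ (i : ℕ) (hi : i < P.length), F (g (toE P[i])) = F (toE (Q[i]'(hl ▸ hi))) := by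
    intro i hi
    have hi' := h1 i hi (hl ▸ hi)
    have hne1 : ‖toE P[i]‖ ≠ 0 := nne _ hi'.1
    have hne2 : ‖toE (Q[i]'(hl ▸ hi))‖ ≠ 0 := nne _ hi'.2
    have e1 : g (‖toE P[i]‖⁻¹ • toE P[i]) =
        ‖toE (Q[i]'(hl ▸ hi))‖⁻¹ • toE (Q[i]'(hl ▸ hi)) := hgg ⟨i, hi⟩
    have e2 : F (g (‖toE P[i]‖⁻¹ • toE P[i])) = F (g (toE P[i])) :=
      (good_comp hF g).ray _ _ (inv_ne_zero hne1) (norm_ne_zero_iff.1 hne1)
    have e3 : F (‖toE (Q[i]'(hl ▸ hi))‖⁻¹ • toE (Q[i]'(hl ▸ hi))) = F (toE (Q[i]'(hl ▸ hi))) :=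
      hF.ray _ _ (inv_ne_zero hne2) (norm_ne_zero_iff.1 hne2)
    rw [← e2, e1, e3]
  refine hP (fun x => F (g x)) (good_comp hF g) ?_
  intro p hp q hq
  obtain ⟨i, hi, rfl⟩ := List.mem_iff_getElem.1 hp
  obtain ⟨j, hj, rfl⟩ := List.mem_iff_getElem.1 hq
  change F (g (toE P[i])) = F (g (toE P[j]))
  rw [key i hi, key j hj]
  exact hQ _ (List.getElem_mem _) _ (List.getElem_mem _)

end Pool.Agent.Helper438.Sph
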