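import Pool.Agent.Helper438.Sph.Geo

set_option autoImplicit false

namespace Pool.Agent.Helper438.Sph

/-- a vector from its 16 bit code -/
def dec16 (x : ℕ) : V4 :=
  (Int.subNatNat (Nat.land x 15) 8, Int.subNatNat (Nat.land (Nat.shiftRight x 4) 15) 8,
    Int.subNatNat (Nat.land (Nat.shiftRight x 8) 15) 8,
    Int.subNatNat (Nat.land (Nat.shiftRight x 12) 15) 8)

/-- ray number `i` of the table `RT` -/
def ray (RT i : ℕ) : V4 := dec16 (Nat.shiftRight RT (Nat.mul 16 i))

/-- The index colourings coming from good colourings of the rays. -/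
def GC (RT : ℕ) (f : ℕ → ℕ) : Prop :=
  ∃ F : E4 → Fin 6, Good F ∧ ∃ σ : Equiv.Perm (Fin 6), f = fun v => (σ (F (toE (ray RT v)))).val

theorem sw_fin : ∀ a : Fin 6, sw a.val = ((Equiv.swap (4 : Fin 6) 5) a).val := by decide

theorem gc_sw {RT : ℕ} {f : ℕ → ℕ} (h : GC RT f) : GC RT (fun v => sw (f v)) := by
  obtain ⟨F, hF, σ, rfl⟩ := h
  refine ⟨F, hF, σ.trans (Equiv.swap 4 5), ?_⟩
  funext v
  exact sw_fin _

/-- bit `u` of `a` -/
def tb (a u : ℕ) : Bool := Nat.beq (Nat.land (Nat.shiftRight a u) 1) 1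

theorem tb_of_testBit {a u : ℕ} (h : a.testBit u = true) : tb a u = true := by
  have h2 : (a >>> u) % 2 = 1 := by
    rw [Nat.testBit_eq_decide_div_mod_eq] at h
    rw [Nat.shiftRight_eq_div_pow]
    exact of_decide_eq_true h
  have h3 : Nat.land (Nat.shiftRight a u) 1 = 1 := by
    change (a >>> u) &&& 1 = 1
    rw [Nat.and_one_is_mod]
    exact h2
  unfold tb
  rw [h3]
  rfl

/-- The mask table `B` contains only orthogonal pairs, and all rays are nonzero. -/
def chkB (RT B : ℕ) : Bool :=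
  (List.range 512).all fun v => force (blk B v) fun a => force (Nat.shiftRight RT (Nat.mul 16 v)) fun r =>
    decide (0 < dot (dec16 r) (dec16 r)) &&
    (List.range 512).all fun u => cond (tb a u) (decide (dot (dec16 r) (ray RT u) = 0)) true

theorem chkB_spec {RT B : ℕ} (h : chkB RT B = true) : (∀ v < 512, 0 < dot (ray RT v) (ray RT v)) ∧
    ∀ v u, v < 512 → u < 512 → (blk B v).testBit u = true → dot (ray RT v) (ray RT u) = 0 := by
  unfold chkB at h
  simp only [force_eq, List.all_eq_true, List.mem_range, Bool.and_eq_true, decide_eq_true_eq] at h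
  refine ⟨fun v hv => (h v hv).1, fun v u hv hu hb => ?_⟩
  have h2 := (h v hv).2 u hu
  rw [tb_of_testBit hb, cond_true] at h2
  exact of_decide_eq_true h2

theorem toE_ne {v : V4} (h : 0 < dot v v) : toE v ≠ 0 := by
  intro h0
  have h1 := inner_toE v v
  rw [h0, inner_zero_left] at h1
  have h2 : (0 : ℝ) < ((dot v v : ℤ) : ℝ) := by exact_mod_cast h
  rw [← h1] at h2
  exact lt_irrefl _ h2

/-- signed vector -/
def sg (s : Bool) (v : V4) : V4 := cond s (-v.1, -v.2.1, -v.2.2.1, -v.2.2.2) v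

theorem toE_sg {F : E4 → Fin 6} (hF : Good F) (s : Bool) {v : V4} (hv : 0 < dot v v) :
    F (toE (sg s v)) = F (toE v) := by
  cases s with
  | false => rfl
  | true =>
    have h1 : toE (sg true v) = (-1 : ℝ) • toE v := by
      ext i
      fin_cases i <;> simp [toE, sg]
    rw [h1]
    exact hF.ray _ _ (by norm_num) (toE_ne hv)

/-- mask of a list of rays -/
def maskL : List (ℕ × Bool) → ℕ
  | [] => 0
  | e :: l => Nat.lor (Nat.pow 2 e.1) (maskL l)

/-- mask table of a list of nogoods -/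
def mkH : List (ℕ × List (ℕ × Bool)) → ℕ
  | [] => 0
  | e :: l => Nat.lor (maskL e.2) (Nat.shiftLeft (mkH l) 512)

/-- the nogood is a copy of a pattern -/
def ngOk (RT : ℕ) (pats : List (List V4)) (e : ℕ × List (ℕ × Bool)) : Bool :=
  decide (e.1 < pats.length) && e.2.all (fun x => Nat.blt x.1 512) &&
    gram (pats.getD e.1 []) (e.2.map fun x => sg x.2 (ray RT x.1))

theorem testBit_maskL (l : List (ℕ × Bool)) (u : ℕ) :
    (maskL l).testBit u = true ↔ ∃ x ∈ l, x.1 = u := by
  induction l with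
  | nil => simp [maskL]
  | cons e l ih =>
    change ((2 ^ e.1) ||| maskL l).testBit u = true ↔ _
    rw [Nat.testBit_or, Nat.testBit_two_pow, Bool.or_eq_true, ih]
    simp

theorem blk_mkH (NL : List (ℕ × List (ℕ × Bool))) (hNL : ∀ e ∈ NL, ∀ x ∈ e.2, x.1 < 512) :
    ∀ (h w : ℕ), w < 512 → (blk (mkH NL) h).testBit w = true →
      ∃ e ∈ NL, ∀ u < 512, ((blk (mkH NL) h).testBit u = true ↔ ∃ x ∈ e.2, x.1 = u) := by
  induction NL with
  | nil =>
    intro h w _ hb
    rw [testBit_blk] at hb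
    simp [mkH] at hb
  | cons e NL ih =>
    intro h w hw hb
    have key : ∀ u, (mkH (e :: NL)).testBit u = ((maskL e.2).testBit u ||
        (decide (512 ≤ u) && (mkH NL).testBit (u - 512))) := by
      intro u
      change ((maskL e.2) ||| ((mkH NL) <<< 512)).testBit u = _
      rw [Nat.testBit_or, Nat.testBit_shiftLeft]
    cases h with
    | zero =>
      refine ⟨e, List.mem_cons_self, fun u hu => ?_⟩
      rw [testBit_blk, key, ← testBit_maskL]
      have h1 : ¬ (512 ≤ 512 * 0 + u) := by omega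
      simp [hu]
    | succ h =>
      have hstep : ∀ u < 512, (blk (mkH (e :: NL)) (h + 1)).testBit u = (blk (mkH NL) h).testBit u := by
        intro u hu
        rw [testBit_blk, testBit_blk, key]
        have h1 : (maskL e.2).testBit (512 * (h + 1) + u) = false := by
          rw [← Bool.not_eq_true, testBit_maskL]
          rintro ⟨x, hx, hxu⟩
          have := hNL e List.mem_cons_self x hx
          omega
        have h2 : 512 * (h + 1) + u - 512 = 512 * h + u := by omega
        have h3 : 512 ≤ 512 * (h + 1) + u := by omega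
        rw [h1, h2]
        simp [h3]
      rw [hstep w hw] at hb
      obtain ⟨e', he', hspec⟩ := ih (fun e he => hNL e (List.mem_cons_of_mem _ he)) h w hw hb
      exact ⟨e', List.mem_cons_of_mem _ he', fun u hu => by rw [hstep u hu]; exact hspec u hu⟩

theorem gc_cls {RT B : ℕ} (hB : chkB RT B = true) {pats : List (List V4)}
    (hp : ∀ P ∈ pats, RefP P) {NL : List (ℕ × List (ℕ × Bool))}
    (hNL : NL.all (ngOk RT pats) = true) (f : ℕ → ℕ) (hf : GC RT f) : Cls B (mkH NL) f := by
  obtain ⟨F, hF, σ, rfl⟩ := hf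
  obtain ⟨hB1, hB2⟩ := chkB_spec hB
  have hNL' : ∀ e ∈ NL, e.1 < pats.length ∧ (∀ x ∈ e.2, x.1 < 512) ∧
      gram (pats.getD e.1 []) (e.2.map fun x => sg x.2 (ray RT x.1)) = true := by
    intro e he
    have h1 := List.all_eq_true.1 hNL e he
    unfold ngOk at h1
    simp only [Bool.and_eq_true, decide_eq_true_eq, List.all_eq_true] at h1
    obtain ⟨⟨h1, h2⟩, h3⟩ := h1
    refine ⟨h1, fun x hx => ?_, h3⟩
    have := h2 x hx
    exact Nat.le_of_ble_eq_true this
  refine ⟨fun v => Fin.isLt _, ?_, ?_⟩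
  · intro v u hv hu hb h
    have h1 := σ.injective (Fin.ext h)
    refine hF.orth _ _ (toE_ne (hB1 u hu)) (toE_ne (hB1 v hv)) ?_ h1
    rw [real_inner_comm, inner_toE, hB2 v u hv hu hb]
    simp
  · intro h w hh hw hb hall
    obtain ⟨e, he, hspec⟩ := blk_mkH NL (fun e he => (hNL' e he).2.1) h w hw hb
    obtain ⟨h1, h2, h3⟩ := hNL' e he
    have hP : RefP (pats.getD e.1 []) := by
      rw [List.getD_eq_getElem _ _ h1]
      exact hp _ (List.getElem_mem _)
    refine mono_transfer hF h3 hP ?_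
    have key : ∀ x ∈ e.2, F (toE (sg x.2 (ray RT x.1))) = F (toE (ray RT w)) := by
      intro x hx
      rw [toE_sg hF _ (hB1 _ (h2 x hx))]
      have h4 := hall x.1 (h2 x hx) ((hspec x.1 (h2 x hx)).2 ⟨x, hx, rfl⟩)
      exact σ.injective (Fin.ext h4)
    intro p hp q hq
    obtain ⟨x, hx, rfl⟩ := List.mem_map.1 hp
    obtain ⟨y, hy, rfl⟩ := List.mem_map.1 hq
    rw [key x hx, key y hy]

/-- One segment of a certificate. -/
noncomputable def seg (RT B : ℕ) (pats : List (List V4)) (NL : List (ℕ × List (ℕ × Bool))) (H : ℕ)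
    (l : List (ℕ × ℕ)) (st st' : List ℕ) : Bool :=
  Nat.beq H (mkH NL) && NL.all (ngOk RT pats) && eqList (runs B H l st) st'

theorem seg_sound {RT B : ℕ} (hB : chkB RT B = true) {pats : List (List V4)}
    (hp : ∀ P ∈ pats, RefP P) {NL : List (ℕ × List (ℕ × Bool))} {H : ℕ}
    {l : List (ℕ × ℕ)} {st st' : List ℕ} (hs : seg RT B pats NL H l st st' = true)
    (h : ∀ S ∈ st', Ref (GC RT) S) : ∀ S ∈ st, Ref (GC RT) S := by
  unfold seg at hs
  simp only [Bool.and_eq_true] at hs
  obtain ⟨⟨h1, h2⟩, h3⟩ := hs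
  have h1 := Nat.eq_of_beq_eq_true h1
  subst h1
  have h3 := eq_of_eqList _ _ h3
  subst h3
  exact runs_sound B _ (GC RT) (fun f hf => gc_cls hB hp h2 f hf) (fun f hf => gc_sw hf) l st h

/-- initial state -/
def initS (B : ℕ) (S : ℕ) : List (ℕ × ℕ) → ℕ
  | [] => S
  | u :: l => initS B (asg S (blk B u.1) u.1 u.2) l

theorem initS_agr {B H : ℕ} {f : ℕ → ℕ} (hf : Cls B H f) (l : List (ℕ × ℕ)) : ∀ S, Agr f S →
    (∀ u ∈ l, u.1 < 512 ∧ u.2 < 6 ∧ f u.1 = u.2) → Agr f (initS B S l) := by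
  induction l with
  | nil => intro S h _; exact h
  | cons u l ih =>
    intro S h hl
    obtain ⟨h1, h2, h3⟩ := hl u List.mem_cons_self
    exact ih _ (asg_agr hf h h1 h2 h3) fun u hu => hl u (List.mem_cons_of_mem _ hu)

/-- the base assignment is of the required form -/
def baseOk (RT : ℕ) (P : List ℕ) (q : Fin 3 → ℕ) : Bool :=
  P.all (fun p => decide (p < 512)) && decide (∀ i, q i < 512) &&
    decide (∀ i j, i ≠ j → dot (ray RT (q i)) (ray RT (q j)) = 0) &&
    decide (∀ i, dot (ray RT (P.headD 0)) (ray RT (q i)) = 0) && decide (P ≠ [])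

theorem exists_perm (g : Fin 4 → Fin 6) (hg : Function.Injective g) :
    ∃ σ : Equiv.Perm (Fin 6), ∀ t, σ (g t) = Fin.castLE (by norm_num) t := by
  let e1 : Set.range g ≃ Set.range (Fin.castLE (by norm_num : 4 ≤ 6)) :=
    (Equiv.ofInjective g hg).symm.trans (Equiv.ofInjective _ (Fin.castLE_injective (by norm_num)))
  refine ⟨e1.extendSubtype, fun t => ?_⟩
  rw [Equiv.extendSubtype_apply_of_mem e1 (g t) ⟨t, rfl⟩]
  simp [e1]

theorem refP_of {RT B : ℕ} (hB : chkB RT B = true) {P : List ℕ} {q : Fin 3 → ℕ}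
    (hq : baseOk RT P q = true)
    (h : ∀ S ∈ [initS B 0 (P.map (fun p => (p, 0)) ++ [(q 0, 1), (q 1, 2), (q 2, 3)])],
      Ref (GC RT) S) : RefP (P.map (ray RT)) := by
  intro F hF hM
  obtain ⟨hB1, hB2⟩ := chkB_spec hB
  unfold baseOk at hq
  simp only [Bool.and_eq_true, decide_eq_true_eq, List.all_eq_true] at hq
  obtain ⟨⟨⟨⟨h1, h2⟩, h3⟩, h4⟩, h5⟩ := hq
  obtain ⟨p0, P', rfl⟩ := List.exists_cons_of_ne_nil h5
  simp only [List.headD_cons] at h4
  have hp0 : p0 < 512 := h1 p0 List.mem_cons_self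
  let g : Fin 4 → Fin 6 := Fin.cons (F (toE (ray RT p0))) (fun i => F (toE (ray RT (q i))))
  have hg : Function.Injective g := by
    intro a b hab
    by_contra hne
    revert hab hne
    refine Fin.cases ?_ (fun i => ?_) a <;> refine Fin.cases ?_ (fun j => ?_) b
    · intro _ hne; exact hne rfl
    · intro hab _
      refine hF.orth _ _ (toE_ne (hB1 _ hp0)) (toE_ne (hB1 _ (h2 j))) ?_ hab
      rw [inner_toE, h4]; simp
    · intro hab _
      refine hF.orth _ _ (toE_ne (hB1 _ hp0)) (toE_ne (hB1 _ (h2 i))) ?_ hab.symm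
      rw [inner_toE, h4]; simp
    · intro hab hne
      have hij : i ≠ j := fun h => hne (by rw [h])
      refine hF.orth _ _ (toE_ne (hB1 _ (h2 i))) (toE_ne (hB1 _ (h2 j))) ?_ hab
      rw [inner_toE, h3 i j hij]; simp
  obtain ⟨σ, hσ⟩ := exists_perm g hg
  have hGC : GC RT (fun v => (σ (F (toE (ray RT v)))).val) := ⟨F, hF, σ, rfl⟩
  have hCls := gc_cls hB (pats := []) (by simp) (NL := []) rfl _ hGC
  refine h _ List.mem_cons_self _ hGC (initS_agr hCls _ 0 ⟨?_, ?_⟩ ?_)
  · intro v c _ _ hb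
    rw [Nat.zero_testBit] at hb
    exact Bool.noConfusion hb
  · intro v c _ _ hb
    rw [Nat.zero_testBit] at hb
    exact Bool.noConfusion hb
  · intro u hu
    have hcol : ∀ p ∈ p0 :: P', (σ (F (toE (ray RT p)))).val = 0 := by
      intro p hp
      have e1 : F (toE (ray RT p)) = F (toE (ray RT p0)) :=
        hM _ (List.mem_map_of_mem hp) _ (List.mem_map_of_mem List.mem_cons_self)
      rw [e1]
      have := hσ 0
      exact congrArg Fin.val this
    rcases List.mem_append.1 hu with hu | hu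
    · obtain ⟨p, hp, rfl⟩ := List.mem_map.1 hu
      exact ⟨h1 p hp, by norm_num, hcol p hp⟩
    · simp only [List.mem_cons, List.not_mem_nil, or_false] at hu
      rcases hu with rfl | rfl | rfl
      · exact ⟨h2 0, by norm_num, congrArg Fin.val (hσ 1)⟩
      · exact ⟨h2 1, by norm_num, congrArg Fin.val (hσ 2)⟩
      · exact ⟨h2 2, by norm_num, congrArg Fin.val (hσ 3)⟩

/-- A refuted single ray gives the bound. -/
theorem not_colorable_of {p : V4} (h : RefP [p]) : ¬ (orthGraph 4).Colorable 6 := by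
  intro hc
  obtain ⟨F, hF⟩ := exists_good hc
  refine h F hF ?_
  intro a ha b hb
  rw [List.mem_singleton.1 ha, List.mem_singleton.1 hb]

end Pool.Agent.Helper438.Sph
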