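import Pool.Agent.Helper438.Sph.StFin

set_option autoImplicit false
set_option maxRecDepth 100000

namespace Pool.Agent.Helper438.Sph

/-- nogoods -/
def nlFin_0 : List (ℕ × List (ℕ × Bool)) := [(0, [(0, false), (16, false)]), (0, [(1, false), (16, false)]), (0, [(2, false), (16, false)]), (0, [(3, false), (16, true)]), (0, [(0, false), (19, true)]), (0, [(1, false), (19, true)]), (0, [(2, false), (19, false)]), (0, [(3, false), (19, true)]), (0, [(0, false), (21, true)]), (0, [(1, false), (21, false)]), (0, [(2, false), (21, true)]), (0, [(3, false), (21, true)])]

/-- nogood masks -/
def hFin_0 : ℕ := 0x2000080000000000000000000000000000000000000000000000000000000000000000000000000000000000000000000000000000000000000000000000000020000400000000000000000000000000000000000000000000000000000000000000000000000000000000000000000000000000000000000000000000000000200002000000000000000000000000000000000000000000000000000000000000000000000000000000000000000000000000000000000000000000000000002000010000000000000000000000000000000000000000000000000000000000000000000000000000000000000000000000000000000000000000000000000008000800000000000000000000000000000000000000000000000000000000000000000000000000000000000000000000000000000000000000000000000000080004000000000000000000000000000000000000000000000000000000000000000000000000000000000000000000000000000000000000000000000000000800020000000000000000000000000000000000000000000000000000000000000000000000000000000000000000000000000000000000000000000000000008000100000000000000000000000000000000000000000000000000000000000000000000000000000000000000000000000000000000000000000000000000010008000000000000000000000000000000000000000000000000000000000000000000000000000000000000000000000000000000000000000000000000000100040000000000000000000000000000000000000000000000000000000000000000000000000000000000000000000000000000000000000000000000000001000200000000000000000000000000000000000000000000000000000000000000000000000000000000000000000000000000000000000000000000000000010001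

/-- tokens -/
def lFin_0 : List (ℕ × ℕ) := [(15, 0xae0ab05f0aa0570a904f0a804709d09b03f09a03709902f09802708608301f08201708100f080007)]

theorem sgFin_0 : seg RT BT patsFin nlFin_0 hFin_0 lFin_0 stFin_0 stFin_1 = true := by
  decide +kernel


end Pool.Agent.Helper438.Sph
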