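import Pool.Agent.Helper438.Sph.SgT00
import Pool.Agent.Helper438.Sph.SgT01
import Pool.Agent.Helper438.Sph.SgT02
import Pool.Agent.Helper438.Sph.SgT03
import Pool.Agent.Helper438.Sph.SgT04
import Pool.Agent.Helper438.Sph.SgQ300
import Pool.Agent.Helper438.Sph.SgQ240
import Pool.Agent.Helper438.Sph.SgQ241
import Pool.Agent.Helper438.Sph.SgQ242
import Pool.Agent.Helper438.Sph.SgQ400
import Pool.Agent.Helper438.Sph.SgQ401
import Pool.Agent.Helper438.Sph.SgQ402
import Pool.Agent.Helper438.Sph.SgQ740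
import Pool.Agent.Helper438.Sph.SgQ741
import Pool.Agent.Helper438.Sph.SgQ742
import Pool.Agent.Helper438.Sph.SgTp0
import Pool.Agent.Helper438.Sph.SgTp1
import Pool.Agent.Helper438.Sph.SgTp2
import Pool.Agent.Helper438.Sph.SgTp3
import Pool.Agent.Helper438.Sph.SgTp4
import Pool.Agent.Helper438.Sph.SgTp5
import Pool.Agent.Helper438.Sph.SgTp6
import Pool.Agent.Helper438.Sph.SgTp7
import Pool.Agent.Helper438.Sph.SgTp8
import Pool.Agent.Helper438.Sph.SgTp9
import Pool.Agent.Helper438.Sph.SgTp10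
import Pool.Agent.Helper438.Sph.SgTp11
import Pool.Agent.Helper438.Sph.SgTp12
import Pool.Agent.Helper438.Sph.SgTp13
import Pool.Agent.Helper438.Sph.SgTp14
import Pool.Agent.Helper438.Sph.SgTp15
import Pool.Agent.Helper438.Sph.SgTp16
import Pool.Agent.Helper438.Sph.SgTp17
import Pool.Agent.Helper438.Sph.SgTp18
import Pool.Agent.Helper438.Sph.SgTp19
import Pool.Agent.Helper438.Sph.SgTp20
import Pool.Agent.Helper438.Sph.SgTp21
import Pool.Agent.Helper438.Sph.SgTp22
import Pool.Agent.Helper438.Sph.SgTp23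
import Pool.Agent.Helper438.Sph.SgTp24
import Pool.Agent.Helper438.Sph.SgTp25
import Pool.Agent.Helper438.Sph.SgTp26
import Pool.Agent.Helper438.Sph.SgP600
import Pool.Agent.Helper438.Sph.SgFin0

set_option autoImplicit false
set_option maxRecDepth 100000

namespace Pool.Agent.Helper438.Sph

theorem refT0 : RefP patT0 := by
  have hp : ∀ P ∈ patsT0, RefP P := by
    intro P hP
    simp only [patsT0, List.mem_cons, List.not_mem_nil, or_false] at hP
  have h37 : ∀ S ∈ stT0_37, Ref (GC RT) S := fun S hS => absurd hS List.not_mem_nil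
  have h36 := seg_sound chk_BT hp sgT0_36 h37
  have h35 := seg_sound chk_BT hp sgT0_35 h36
  have h34 := seg_sound chk_BT hp sgT0_34 h35
  have h33 := seg_sound chk_BT hp sgT0_33 h34
  have h32 := seg_sound chk_BT hp sgT0_32 h33
  have h31 := seg_sound chk_BT hp sgT0_31 h32
  have h30 := seg_sound chk_BT hp sgT0_30 h31
  have h29 := seg_sound chk_BT hp sgT0_29 h30
  have h28 := seg_sound chk_BT hp sgT0_28 h29
  have h27 := seg_sound chk_BT hp sgT0_27 h28
  have h26 := seg_sound chk_BT hp sgT0_26 h27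
  have h25 := seg_sound chk_BT hp sgT0_25 h26
  have h24 := seg_sound chk_BT hp sgT0_24 h25
  have h23 := seg_sound chk_BT hp sgT0_23 h24
  have h22 := seg_sound chk_BT hp sgT0_22 h23
  have h21 := seg_sound chk_BT hp sgT0_21 h22
  have h20 := seg_sound chk_BT hp sgT0_20 h21
  have h19 := seg_sound chk_BT hp sgT0_19 h20
  have h18 := seg_sound chk_BT hp sgT0_18 h19
  have h17 := seg_sound chk_BT hp sgT0_17 h18
  have h16 := seg_sound chk_BT hp sgT0_16 h17
  have h15 := seg_sound chk_BT hp sgT0_15 h16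
  have h14 := seg_sound chk_BT hp sgT0_14 h15
  have h13 := seg_sound chk_BT hp sgT0_13 h14
  have h12 := seg_sound chk_BT hp sgT0_12 h13
  have h11 := seg_sound chk_BT hp sgT0_11 h12
  have h10 := seg_sound chk_BT hp sgT0_10 h11
  have h9 := seg_sound chk_BT hp sgT0_9 h10
  have h8 := seg_sound chk_BT hp sgT0_8 h9
  have h7 := seg_sound chk_BT hp sgT0_7 h8
  have h6 := seg_sound chk_BT hp sgT0_6 h7
  have h5 := seg_sound chk_BT hp sgT0_5 h6
  have h4 := seg_sound chk_BT hp sgT0_4 h5
  have h3 := seg_sound chk_BT hp sgT0_3 h4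
  have h2 := seg_sound chk_BT hp sgT0_2 h3
  have h1 := seg_sound chk_BT hp sgT0_1 h2
  have h0 := seg_sound chk_BT hp sgT0_0 h1
  refine refP_of (RT := RT) (B := BT) (P := [0, 16, 17]) (q := ![6, 87, 28]) chk_BT (by decide +kernel) ?_
  have he : eqList [initS BT 0 (([0, 16, 17] : List ℕ).map (fun p => (p, 0)) ++ [((![6, 87, 28] : Fin 3 → ℕ) 0, 1), ((![6, 87, 28] : Fin 3 → ℕ) 1, 2), ((![6, 87, 28] : Fin 3 → ℕ) 2, 3)])] stT0_0 = true := by
    decide +kernel
  rw [eq_of_eqList _ _ he]
  exact h0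

theorem refQ30 : RefP patQ30 := by
  have hp : ∀ P ∈ patsQ30, RefP P := by
    intro P hP
    simp only [patsQ30, List.mem_cons, List.not_mem_nil, or_false] at hP
    subst hP
    exact refT0
  have h7 : ∀ S ∈ stQ30_7, Ref (GC RT) S := fun S hS => absurd hS List.not_mem_nil
  have h6 := seg_sound chk_BT hp sgQ30_6 h7
  have h5 := seg_sound chk_BT hp sgQ30_5 h6
  have h4 := seg_sound chk_BT hp sgQ30_4 h5
  have h3 := seg_sound chk_BT hp sgQ30_3 h4
  have h2 := seg_sound chk_BT hp sgQ30_2 h3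
  have h1 := seg_sound chk_BT hp sgQ30_1 h2
  have h0 := seg_sound chk_BT hp sgQ30_0 h1
  refine refP_of (RT := RT) (B := BT) (P := [0, 16, 18, 30]) (q := ![15, 1, 10]) chk_BT (by decide +kernel) ?_
  have he : eqList [initS BT 0 (([0, 16, 18, 30] : List ℕ).map (fun p => (p, 0)) ++ [((![15, 1, 10] : Fin 3 → ℕ) 0, 1), ((![15, 1, 10] : Fin 3 → ℕ) 1, 2), ((![15, 1, 10] : Fin 3 → ℕ) 2, 3)])] stQ30_0 = true := by
    decide +kernel
  rw [eq_of_eqList _ _ he]
  exact h0

theorem refQ24 : RefP patQ24 := by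
  have hp : ∀ P ∈ patsQ24, RefP P := by
    intro P hP
    simp only [patsQ24, List.mem_cons, List.not_mem_nil, or_false] at hP
    rcases hP with rfl | rfl
    · exact refT0
    · exact refQ30
  have h17 : ∀ S ∈ stQ24_17, Ref (GC RT) S := fun S hS => absurd hS List.not_mem_nil
  have h16 := seg_sound chk_BT hp sgQ24_16 h17
  have h15 := seg_sound chk_BT hp sgQ24_15 h16
  have h14 := seg_sound chk_BT hp sgQ24_14 h15
  have h13 := seg_sound chk_BT hp sgQ24_13 h14
  have h12 := seg_sound chk_BT hp sgQ24_12 h13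
  have h11 := seg_sound chk_BT hp sgQ24_11 h12
  have h10 := seg_sound chk_BT hp sgQ24_10 h11
  have h9 := seg_sound chk_BT hp sgQ24_9 h10
  have h8 := seg_sound chk_BT hp sgQ24_8 h9
  have h7 := seg_sound chk_BT hp sgQ24_7 h8
  have h6 := seg_sound chk_BT hp sgQ24_6 h7
  have h5 := seg_sound chk_BT hp sgQ24_5 h6
  have h4 := seg_sound chk_BT hp sgQ24_4 h5
  have h3 := seg_sound chk_BT hp sgQ24_3 h4
  have h2 := seg_sound chk_BT hp sgQ24_2 h3
  have h1 := seg_sound chk_BT hp sgQ24_1 h2
  have h0 := seg_sound chk_BT hp sgQ24_0 h1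
  refine refP_of (RT := RT) (B := BT) (P := [0, 16, 18, 24]) (q := ![9, 3, 6]) chk_BT (by decide +kernel) ?_
  have he : eqList [initS BT 0 (([0, 16, 18, 24] : List ℕ).map (fun p => (p, 0)) ++ [((![9, 3, 6] : Fin 3 → ℕ) 0, 1), ((![9, 3, 6] : Fin 3 → ℕ) 1, 2), ((![9, 3, 6] : Fin 3 → ℕ) 2, 3)])] stQ24_0 = true := by
    decide +kernel
  rw [eq_of_eqList _ _ he]
  exact h0

theorem refQ40 : RefP patQ40 := by
  have hp : ∀ P ∈ patsQ40, RefP P := by
    intro P hP
    simp only [patsQ40, List.mem_cons, List.not_mem_nil, or_false] at hP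
    rcases hP with rfl | rfl
    · exact refT0
    · exact refQ30
  have h17 : ∀ S ∈ stQ40_17, Ref (GC RT) S := fun S hS => absurd hS List.not_mem_nil
  have h16 := seg_sound chk_BT hp sgQ40_16 h17
  have h15 := seg_sound chk_BT hp sgQ40_15 h16
  have h14 := seg_sound chk_BT hp sgQ40_14 h15
  have h13 := seg_sound chk_BT hp sgQ40_13 h14
  have h12 := seg_sound chk_BT hp sgQ40_12 h13
  have h11 := seg_sound chk_BT hp sgQ40_11 h12
  have h10 := seg_sound chk_BT hp sgQ40_10 h11
  have h9 := seg_sound chk_BT hp sgQ40_9 h10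
  have h8 := seg_sound chk_BT hp sgQ40_8 h9
  have h7 := seg_sound chk_BT hp sgQ40_7 h8
  have h6 := seg_sound chk_BT hp sgQ40_6 h7
  have h5 := seg_sound chk_BT hp sgQ40_5 h6
  have h4 := seg_sound chk_BT hp sgQ40_4 h5
  have h3 := seg_sound chk_BT hp sgQ40_3 h4
  have h2 := seg_sound chk_BT hp sgQ40_2 h3
  have h1 := seg_sound chk_BT hp sgQ40_1 h2
  have h0 := seg_sound chk_BT hp sgQ40_0 h1
  refine refP_of (RT := RT) (B := BT) (P := [0, 16, 18, 40]) (q := ![15, 56, 31]) chk_BT (by decide +kernel) ?_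
  have he : eqList [initS BT 0 (([0, 16, 18, 40] : List ℕ).map (fun p => (p, 0)) ++ [((![15, 56, 31] : Fin 3 → ℕ) 0, 1), ((![15, 56, 31] : Fin 3 → ℕ) 1, 2), ((![15, 56, 31] : Fin 3 → ℕ) 2, 3)])] stQ40_0 = true := by
    decide +kernel
  rw [eq_of_eqList _ _ he]
  exact h0

theorem refQ74 : RefP patQ74 := by
  have hp : ∀ P ∈ patsQ74, RefP P := by
    intro P hP
    simp only [patsQ74, List.mem_cons, List.not_mem_nil, or_false] at hP
    rcases hP with rfl | rfl
    · exact refT0
    · exact refQ30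
  have h17 : ∀ S ∈ stQ74_17, Ref (GC RT) S := fun S hS => absurd hS List.not_mem_nil
  have h16 := seg_sound chk_BT hp sgQ74_16 h17
  have h15 := seg_sound chk_BT hp sgQ74_15 h16
  have h14 := seg_sound chk_BT hp sgQ74_14 h15
  have h13 := seg_sound chk_BT hp sgQ74_13 h14
  have h12 := seg_sound chk_BT hp sgQ74_12 h13
  have h11 := seg_sound chk_BT hp sgQ74_11 h12
  have h10 := seg_sound chk_BT hp sgQ74_10 h11
  have h9 := seg_sound chk_BT hp sgQ74_9 h10
  have h8 := seg_sound chk_BT hp sgQ74_8 h9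
  have h7 := seg_sound chk_BT hp sgQ74_7 h8
  have h6 := seg_sound chk_BT hp sgQ74_6 h7
  have h5 := seg_sound chk_BT hp sgQ74_5 h6
  have h4 := seg_sound chk_BT hp sgQ74_4 h5
  have h3 := seg_sound chk_BT hp sgQ74_3 h4
  have h2 := seg_sound chk_BT hp sgQ74_2 h3
  have h1 := seg_sound chk_BT hp sgQ74_1 h2
  have h0 := seg_sound chk_BT hp sgQ74_0 h1
  refine refP_of (RT := RT) (B := BT) (P := [0, 16, 18, 74]) (q := ![15, 1, 10]) chk_BT (by decide +kernel) ?_
  have he : eqList [initS BT 0 (([0, 16, 18, 74] : List ℕ).map (fun p => (p, 0)) ++ [((![15, 1, 10] : Fin 3 → ℕ) 0, 1), ((![15, 1, 10] : Fin 3 → ℕ) 1, 2), ((![15, 1, 10] : Fin 3 → ℕ) 2, 3)])] stQ74_0 = true := by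
    decide +kernel
  rw [eq_of_eqList _ _ he]
  exact h0

theorem refTp : RefP patTp := by
  have hp : ∀ P ∈ patsTp, RefP P := by
    intro P hP
    simp only [patsTp, List.mem_cons, List.not_mem_nil, or_false] at hP
    rcases hP with rfl | rfl | rfl | rfl | rfl
    · exact refT0
    · exact refQ30
    · exact refQ24
    · exact refQ40
    · exact refQ74
  have h209 : ∀ S ∈ stTp_209, Ref (GC RT) S := fun S hS => absurd hS List.not_mem_nil
  have h208 := seg_sound chk_BT hp sgTp_208 h209
  have h207 := seg_sound chk_BT hp sgTp_207 h208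
  have h206 := seg_sound chk_BT hp sgTp_206 h207
  have h205 := seg_sound chk_BT hp sgTp_205 h206
  have h204 := seg_sound chk_BT hp sgTp_204 h205
  have h203 := seg_sound chk_BT hp sgTp_203 h204
  have h202 := seg_sound chk_BT hp sgTp_202 h203
  have h201 := seg_sound chk_BT hp sgTp_201 h202
  have h200 := seg_sound chk_BT hp sgTp_200 h201
  have h199 := seg_sound chk_BT hp sgTp_199 h200
  have h198 := seg_sound chk_BT hp sgTp_198 h199
  have h197 := seg_sound chk_BT hp sgTp_197 h198
  have h196 := seg_sound chk_BT hp sgTp_196 h197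
  have h195 := seg_sound chk_BT hp sgTp_195 h196
  have h194 := seg_sound chk_BT hp sgTp_194 h195
  have h193 := seg_sound chk_BT hp sgTp_193 h194
  have h192 := seg_sound chk_BT hp sgTp_192 h193
  have h191 := seg_sound chk_BT hp sgTp_191 h192
  have h190 := seg_sound chk_BT hp sgTp_190 h191
  have h189 := seg_sound chk_BT hp sgTp_189 h190
  have h188 := seg_sound chk_BT hp sgTp_188 h189
  have h187 := seg_sound chk_BT hp sgTp_187 h188
  have h186 := seg_sound chk_BT hp sgTp_186 h187
  have h185 := seg_sound chk_BT hp sgTp_185 h186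
  have h184 := seg_sound chk_BT hp sgTp_184 h185
  have h183 := seg_sound chk_BT hp sgTp_183 h184
  have h182 := seg_sound chk_BT hp sgTp_182 h183
  have h181 := seg_sound chk_BT hp sgTp_181 h182
  have h180 := seg_sound chk_BT hp sgTp_180 h181
  have h179 := seg_sound chk_BT hp sgTp_179 h180
  have h178 := seg_sound chk_BT hp sgTp_178 h179
  have h177 := seg_sound chk_BT hp sgTp_177 h178
  have h176 := seg_sound chk_BT hp sgTp_176 h177
  have h175 := seg_sound chk_BT hp sgTp_175 h176
  have h174 := seg_sound chk_BT hp sgTp_174 h175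
  have h173 := seg_sound chk_BT hp sgTp_173 h174
  have h172 := seg_sound chk_BT hp sgTp_172 h173
  have h171 := seg_sound chk_BT hp sgTp_171 h172
  have h170 := seg_sound chk_BT hp sgTp_170 h171
  have h169 := seg_sound chk_BT hp sgTp_169 h170
  have h168 := seg_sound chk_BT hp sgTp_168 h169
  have h167 := seg_sound chk_BT hp sgTp_167 h168
  have h166 := seg_sound chk_BT hp sgTp_166 h167
  have h165 := seg_sound chk_BT hp sgTp_165 h166
  have h164 := seg_sound chk_BT hp sgTp_164 h165
  have h163 := seg_sound chk_BT hp sgTp_163 h164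
  have h162 := seg_sound chk_BT hp sgTp_162 h163
  have h161 := seg_sound chk_BT hp sgTp_161 h162
  have h160 := seg_sound chk_BT hp sgTp_160 h161
  have h159 := seg_sound chk_BT hp sgTp_159 h160
  have h158 := seg_sound chk_BT hp sgTp_158 h159
  have h157 := seg_sound chk_BT hp sgTp_157 h158
  have h156 := seg_sound chk_BT hp sgTp_156 h157
  have h155 := seg_sound chk_BT hp sgTp_155 h156
  have h154 := seg_sound chk_BT hp sgTp_154 h155
  have h153 := seg_sound chk_BT hp sgTp_153 h154
  have h152 := seg_sound chk_BT hp sgTp_152 h153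
  have h151 := seg_sound chk_BT hp sgTp_151 h152
  have h150 := seg_sound chk_BT hp sgTp_150 h151
  have h149 := seg_sound chk_BT hp sgTp_149 h150
  have h148 := seg_sound chk_BT hp sgTp_148 h149
  have h147 := seg_sound chk_BT hp sgTp_147 h148
  have h146 := seg_sound chk_BT hp sgTp_146 h147
  have h145 := seg_sound chk_BT hp sgTp_145 h146
  have h144 := seg_sound chk_BT hp sgTp_144 h145
  have h143 := seg_sound chk_BT hp sgTp_143 h144
  have h142 := seg_sound chk_BT hp sgTp_142 h143
  have h141 := seg_sound chk_BT hp sgTp_141 h142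
  have h140 := seg_sound chk_BT hp sgTp_140 h141
  have h139 := seg_sound chk_BT hp sgTp_139 h140
  have h138 := seg_sound chk_BT hp sgTp_138 h139
  have h137 := seg_sound chk_BT hp sgTp_137 h138
  have h136 := seg_sound chk_BT hp sgTp_136 h137
  have h135 := seg_sound chk_BT hp sgTp_135 h136
  have h134 := seg_sound chk_BT hp sgTp_134 h135
  have h133 := seg_sound chk_BT hp sgTp_133 h134
  have h132 := seg_sound chk_BT hp sgTp_132 h133
  have h131 := seg_sound chk_BT hp sgTp_131 h132
  have h130 := seg_sound chk_BT hp sgTp_130 h131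
  have h129 := seg_sound chk_BT hp sgTp_129 h130
  have h128 := seg_sound chk_BT hp sgTp_128 h129
  have h127 := seg_sound chk_BT hp sgTp_127 h128
  have h126 := seg_sound chk_BT hp sgTp_126 h127
  have h125 := seg_sound chk_BT hp sgTp_125 h126
  have h124 := seg_sound chk_BT hp sgTp_124 h125
  have h123 := seg_sound chk_BT hp sgTp_123 h124
  have h122 := seg_sound chk_BT hp sgTp_122 h123
  have h121 := seg_sound chk_BT hp sgTp_121 h122
  have h120 := seg_sound chk_BT hp sgTp_120 h121
  have h119 := seg_sound chk_BT hp sgTp_119 h120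
  have h118 := seg_sound chk_BT hp sgTp_118 h119
  have h117 := seg_sound chk_BT hp sgTp_117 h118
  have h116 := seg_sound chk_BT hp sgTp_116 h117
  have h115 := seg_sound chk_BT hp sgTp_115 h116
  have h114 := seg_sound chk_BT hp sgTp_114 h115
  have h113 := seg_sound chk_BT hp sgTp_113 h114
  have h112 := seg_sound chk_BT hp sgTp_112 h113
  have h111 := seg_sound chk_BT hp sgTp_111 h112
  have h110 := seg_sound chk_BT hp sgTp_110 h111
  have h109 := seg_sound chk_BT hp sgTp_109 h110
  have h108 := seg_sound chk_BT hp sgTp_108 h109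
  have h107 := seg_sound chk_BT hp sgTp_107 h108
  have h106 := seg_sound chk_BT hp sgTp_106 h107
  have h105 := seg_sound chk_BT hp sgTp_105 h106
  have h104 := seg_sound chk_BT hp sgTp_104 h105
  have h103 := seg_sound chk_BT hp sgTp_103 h104
  have h102 := seg_sound chk_BT hp sgTp_102 h103
  have h101 := seg_sound chk_BT hp sgTp_101 h102
  have h100 := seg_sound chk_BT hp sgTp_100 h101
  have h99 := seg_sound chk_BT hp sgTp_99 h100
  have h98 := seg_sound chk_BT hp sgTp_98 h99
  have h97 := seg_sound chk_BT hp sgTp_97 h98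
  have h96 := seg_sound chk_BT hp sgTp_96 h97
  have h95 := seg_sound chk_BT hp sgTp_95 h96
  have h94 := seg_sound chk_BT hp sgTp_94 h95
  have h93 := seg_sound chk_BT hp sgTp_93 h94
  have h92 := seg_sound chk_BT hp sgTp_92 h93
  have h91 := seg_sound chk_BT hp sgTp_91 h92
  have h90 := seg_sound chk_BT hp sgTp_90 h91
  have h89 := seg_sound chk_BT hp sgTp_89 h90
  have h88 := seg_sound chk_BT hp sgTp_88 h89
  have h87 := seg_sound chk_BT hp sgTp_87 h88
  have h86 := seg_sound chk_BT hp sgTp_86 h87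
  have h85 := seg_sound chk_BT hp sgTp_85 h86
  have h84 := seg_sound chk_BT hp sgTp_84 h85
  have h83 := seg_sound chk_BT hp sgTp_83 h84
  have h82 := seg_sound chk_BT hp sgTp_82 h83
  have h81 := seg_sound chk_BT hp sgTp_81 h82
  have h80 := seg_sound chk_BT hp sgTp_80 h81
  have h79 := seg_sound chk_BT hp sgTp_79 h80
  have h78 := seg_sound chk_BT hp sgTp_78 h79
  have h77 := seg_sound chk_BT hp sgTp_77 h78
  have h76 := seg_sound chk_BT hp sgTp_76 h77
  have h75 := seg_sound chk_BT hp sgTp_75 h76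
  have h74 := seg_sound chk_BT hp sgTp_74 h75
  have h73 := seg_sound chk_BT hp sgTp_73 h74
  have h72 := seg_sound chk_BT hp sgTp_72 h73
  have h71 := seg_sound chk_BT hp sgTp_71 h72
  have h70 := seg_sound chk_BT hp sgTp_70 h71
  have h69 := seg_sound chk_BT hp sgTp_69 h70
  have h68 := seg_sound chk_BT hp sgTp_68 h69
  have h67 := seg_sound chk_BT hp sgTp_67 h68
  have h66 := seg_sound chk_BT hp sgTp_66 h67
  have h65 := seg_sound chk_BT hp sgTp_65 h66
  have h64 := seg_sound chk_BT hp sgTp_64 h65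
  have h63 := seg_sound chk_BT hp sgTp_63 h64
  have h62 := seg_sound chk_BT hp sgTp_62 h63
  have h61 := seg_sound chk_BT hp sgTp_61 h62
  have h60 := seg_sound chk_BT hp sgTp_60 h61
  have h59 := seg_sound chk_BT hp sgTp_59 h60
  have h58 := seg_sound chk_BT hp sgTp_58 h59
  have h57 := seg_sound chk_BT hp sgTp_57 h58
  have h56 := seg_sound chk_BT hp sgTp_56 h57
  have h55 := seg_sound chk_BT hp sgTp_55 h56
  have h54 := seg_sound chk_BT hp sgTp_54 h55
  have h53 := seg_sound chk_BT hp sgTp_53 h54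
  have h52 := seg_sound chk_BT hp sgTp_52 h53
  have h51 := seg_sound chk_BT hp sgTp_51 h52
  have h50 := seg_sound chk_BT hp sgTp_50 h51
  have h49 := seg_sound chk_BT hp sgTp_49 h50
  have h48 := seg_sound chk_BT hp sgTp_48 h49
  have h47 := seg_sound chk_BT hp sgTp_47 h48
  have h46 := seg_sound chk_BT hp sgTp_46 h47
  have h45 := seg_sound chk_BT hp sgTp_45 h46
  have h44 := seg_sound chk_BT hp sgTp_44 h45
  have h43 := seg_sound chk_BT hp sgTp_43 h44
  have h42 := seg_sound chk_BT hp sgTp_42 h43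
  have h41 := seg_sound chk_BT hp sgTp_41 h42
  have h40 := seg_sound chk_BT hp sgTp_40 h41
  have h39 := seg_sound chk_BT hp sgTp_39 h40
  have h38 := seg_sound chk_BT hp sgTp_38 h39
  have h37 := seg_sound chk_BT hp sgTp_37 h38
  have h36 := seg_sound chk_BT hp sgTp_36 h37
  have h35 := seg_sound chk_BT hp sgTp_35 h36
  have h34 := seg_sound chk_BT hp sgTp_34 h35
  have h33 := seg_sound chk_BT hp sgTp_33 h34
  have h32 := seg_sound chk_BT hp sgTp_32 h33
  have h31 := seg_sound chk_BT hp sgTp_31 h32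
  have h30 := seg_sound chk_BT hp sgTp_30 h31
  have h29 := seg_sound chk_BT hp sgTp_29 h30
  have h28 := seg_sound chk_BT hp sgTp_28 h29
  have h27 := seg_sound chk_BT hp sgTp_27 h28
  have h26 := seg_sound chk_BT hp sgTp_26 h27
  have h25 := seg_sound chk_BT hp sgTp_25 h26
  have h24 := seg_sound chk_BT hp sgTp_24 h25
  have h23 := seg_sound chk_BT hp sgTp_23 h24
  have h22 := seg_sound chk_BT hp sgTp_22 h23
  have h21 := seg_sound chk_BT hp sgTp_21 h22
  have h20 := seg_sound chk_BT hp sgTp_20 h21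
  have h19 := seg_sound chk_BT hp sgTp_19 h20
  have h18 := seg_sound chk_BT hp sgTp_18 h19
  have h17 := seg_sound chk_BT hp sgTp_17 h18
  have h16 := seg_sound chk_BT hp sgTp_16 h17
  have h15 := seg_sound chk_BT hp sgTp_15 h16
  have h14 := seg_sound chk_BT hp sgTp_14 h15
  have h13 := seg_sound chk_BT hp sgTp_13 h14
  have h12 := seg_sound chk_BT hp sgTp_12 h13
  have h11 := seg_sound chk_BT hp sgTp_11 h12
  have h10 := seg_sound chk_BT hp sgTp_10 h11
  have h9 := seg_sound chk_BT hp sgTp_9 h10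
  have h8 := seg_sound chk_BT hp sgTp_8 h9
  have h7 := seg_sound chk_BT hp sgTp_7 h8
  have h6 := seg_sound chk_BT hp sgTp_6 h7
  have h5 := seg_sound chk_BT hp sgTp_5 h6
  have h4 := seg_sound chk_BT hp sgTp_4 h5
  have h3 := seg_sound chk_BT hp sgTp_3 h4
  have h2 := seg_sound chk_BT hp sgTp_2 h3
  have h1 := seg_sound chk_BT hp sgTp_1 h2
  have h0 := seg_sound chk_BT hp sgTp_0 h1
  refine refP_of (RT := RT) (B := BT) (P := [0, 16, 18]) (q := ![15, 56, 31]) chk_BT (by decide +kernel) ?_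
  have he : eqList [initS BT 0 (([0, 16, 18] : List ℕ).map (fun p => (p, 0)) ++ [((![15, 56, 31] : Fin 3 → ℕ) 0, 1), ((![15, 56, 31] : Fin 3 → ℕ) 1, 2), ((![15, 56, 31] : Fin 3 → ℕ) 2, 3)])] stTp_0 = true := by
    decide +kernel
  rw [eq_of_eqList _ _ he]
  exact h0

theorem refP60 : RefP patP60 := by
  have hp : ∀ P ∈ patsP60, RefP P := by
    intro P hP
    simp only [patsP60, List.mem_cons, List.not_mem_nil, or_false] at hP
    rcases hP with rfl | rfl
    · exact refT0
    · exact refTp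
  have h5 : ∀ S ∈ stP60_5, Ref (GC RT) S := fun S hS => absurd hS List.not_mem_nil
  have h4 := seg_sound chk_BT hp sgP60_4 h5
  have h3 := seg_sound chk_BT hp sgP60_3 h4
  have h2 := seg_sound chk_BT hp sgP60_2 h3
  have h1 := seg_sound chk_BT hp sgP60_1 h2
  have h0 := seg_sound chk_BT hp sgP60_0 h1
  refine refP_of (RT := RT) (B := BT) (P := [0, 16]) (q := ![6, 87, 28]) chk_BT (by decide +kernel) ?_
  have he : eqList [initS BT 0 (([0, 16] : List ℕ).map (fun p => (p, 0)) ++ [((![6, 87, 28] : Fin 3 → ℕ) 0, 1), ((![6, 87, 28] : Fin 3 → ℕ) 1, 2), ((![6, 87, 28] : Fin 3 → ℕ) 2, 3)])] stP60_0 = true := by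
    decide +kernel
  rw [eq_of_eqList _ _ he]
  exact h0

theorem refFin : RefP patFin := by
  have hp : ∀ P ∈ patsFin, RefP P := by
    intro P hP
    simp only [patsFin, List.mem_cons, List.not_mem_nil, or_false] at hP
    subst hP
    exact refP60
  have h1 : ∀ S ∈ stFin_1, Ref (GC RT) S := fun S hS => absurd hS List.not_mem_nil
  have h0 := seg_sound chk_BT hp sgFin_0 h1
  refine refP_of (RT := RT) (B := BT) (P := [0]) (q := ![1, 2, 3]) chk_BT (by decide +kernel) ?_
  have he : eqList [initS BT 0 (([0] : List ℕ).map (fun p => (p, 0)) ++ [((![1, 2, 3] : Fin 3 → ℕ) 0, 1), ((![1, 2, 3] : Fin 3 → ℕ) 1, 2), ((![1, 2, 3] : Fin 3 → ℕ) 2, 3)])] stFin_0 = true := by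
    decide +kernel
  rw [eq_of_eqList _ _ he]
  exact h0

theorem not_six : ¬ (orthGraph 4).Colorable 6 := not_colorable_of (p := ray RT 0) refFin

end Pool.Agent.Helper438.Sph
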