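import Pool.Agent.Helper438.Sph.Dat

set_option autoImplicit false
set_option maxRecDepth 100000

namespace Pool.Agent.Helper438.Sph

/-- pattern -/
def patT0 : List V4 := [0, 16, 17].map (ray RT)

/-- pattern -/
def patQ30 : List V4 := [0, 16, 18, 30].map (ray RT)

/-- pattern -/
def patQ24 : List V4 := [0, 16, 18, 24].map (ray RT)

/-- pattern -/
def patQ40 : List V4 := [0, 16, 18, 40].map (ray RT)

/-- pattern -/
def patQ74 : List V4 := [0, 16, 18, 74].map (ray RT)

/-- pattern -/
def patTp : List V4 := [0, 16, 18].map (ray RT)

/-- pattern -/
def patP60 : List V4 := [0, 16].map (ray RT)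

/-- pattern -/
def patFin : List V4 := [0].map (ray RT)

/-- patterns used for T0 -/
def patsT0 : List (List V4) := []

/-- patterns used for Q30 -/
def patsQ30 : List (List V4) := [patT0]

/-- patterns used for Q24 -/
def patsQ24 : List (List V4) := [patT0, patQ30]

/-- patterns used for Q40 -/
def patsQ40 : List (List V4) := [patT0, patQ30]

/-- patterns used for Q74 -/
def patsQ74 : List (List V4) := [patT0, patQ30]

/-- patterns used for Tp -/
def patsTp : List (List V4) := [patT0, patQ30, patQ24, patQ40, patQ74]

/-- patterns used for P60 -/
def patsP60 : List (List V4) := [patT0, patTp]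

/-- patterns used for Fin -/
def patsFin : List (List V4) := [patP60]

end Pool.Agent.Helper438.Sph
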