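import Pool.Agent.Helper438.Sph.Chk

set_option autoImplicit false

namespace Pool.Agent.Helper438.Sph

theorem force_eq {α : Type} (n : ℕ) (k : ℕ → α) : force n k = k n := by
  unfold force
  cases n <;> rfl

/-- The colouring agrees with the state. -/
def Agr (F : ℕ → ℕ) (S : ℕ) : Prop :=
  (∀ v c, c < 6 → v < 512 → S.testBit (512 * c + v) = true → F v ≠ c) ∧
  (∀ v c, c < 6 → v < 512 → S.testBit (3072 + 512 * c + v) = true → F v = c)

/-- The colourings we consider: six colours, proper for the edges in `B`, no set in `H` is
monochromatic. -/
def Cls (B H : ℕ) (F : ℕ → ℕ) : Prop :=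
  (∀ v, F v < 6) ∧
  (∀ v u, v < 512 → u < 512 → (blk B v).testBit u = true → F u ≠ F v) ∧
  (∀ h w, h < 512 → w < 512 → (blk H h).testBit w = true →
    ¬ ∀ u, u < 512 → (blk H h).testBit u = true → F u = F w)

/-- The state is refuted, for the colourings with property `G`. -/
def Ref (G : (ℕ → ℕ) → Prop) (S : ℕ) : Prop := ∀ F, G F → ¬ Agr F S

/-- Exchange the colours 4 and 5. -/
def sw (c : ℕ) : ℕ := if c = 4 then 5 else if c = 5 then 4 else c

set_option exponentiation.threshold 5000 in
theorem testBit_blk (x i j : ℕ) : (blk x i).testBit j = (decide (j < 512) && x.testBit (512 * i + j)) := by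
  unfold blk
  generalize hm : Nat.sub (Nat.pow 2 512) 1 = m
  have hm' : m = 2 ^ 512 - 1 := hm.symm
  change ((x >>> (512 * i)) &&& m).testBit j = _
  rw [hm', Nat.testBit_and, Nat.testBit_two_pow_sub_one, Nat.testBit_shiftRight, Bool.and_comm]

theorem testBit_asg (S a v c j : ℕ) : (asg S a v c).testBit j =
    ((S.testBit j || (decide (512 * c ≤ j) && a.testBit (j - 512 * c))) ||
      (decide (3072 + 512 * c + v ≤ j) && Nat.testBit 1 (j - (3072 + 512 * c + v)))) := by
  change ((S ||| (a <<< (512 * c))) ||| (1 <<< (3072 + 512 * c + v))).testBit j = _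
  rw [Nat.testBit_or, Nat.testBit_or, Nat.testBit_shiftLeft, Nat.testBit_shiftLeft]

theorem testBit_one' (i : ℕ) : Nat.testBit 1 i = true → i = 0 := by
  intro h
  by_contra h0
  have : Nat.testBit 1 i = false := by
    have h1 : (1 : ℕ) < 2 ^ i := Nat.one_lt_two_pow h0
    exact Nat.testBit_lt_two_pow h1
  rw [this] at h
  exact Bool.noConfusion h

theorem asg_agr {B H S v c : ℕ} {F : ℕ → ℕ} (hF : Cls B H F) (hA : Agr F S) (hv : v < 512)
    (hc : c < 6) (hvc : F v = c) : Agr F (asg S (blk B v) v c) := by
  constructor
  · intro u d hd hu h
    rw [testBit_asg, Bool.or_eq_true, Bool.or_eq_true, Bool.and_eq_true, Bool.and_eq_true] at h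
    rcases h with (h | ⟨h1, h2⟩) | ⟨h1, h2⟩
    · exact hA.1 u d hd hu h
    · rw [testBit_blk, Bool.and_eq_true] at h2
      obtain ⟨h2, h3⟩ := h2
      have h1 := of_decide_eq_true h1
      have h2 := of_decide_eq_true h2
      have hdc : d = c := by omega
      subst hdc
      have : 512 * d + u - 512 * d = u := by omega
      rw [this] at h3
      have h4 := hF.2.1 v u hv hu (by rw [testBit_blk, h3]; simp [hu])
      rwa [hvc] at h4
    · have h1 := of_decide_eq_true h1
      omega
  · intro u d hd hu h
    rw [testBit_asg, Bool.or_eq_true, Bool.or_eq_true, Bool.and_eq_true, Bool.and_eq_true] at h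
    rcases h with (h | ⟨h1, h2⟩) | ⟨h1, h2⟩
    · exact hA.2 u d hd hu h
    · rw [testBit_blk, Bool.and_eq_true] at h2
      obtain ⟨h2, h3⟩ := h2
      have h1 := of_decide_eq_true h1
      have h2 := of_decide_eq_true h2
      omega
    · have h1 := of_decide_eq_true h1
      have h2 := testBit_one' _ h2
      have hdc : d = c := by omega
      subst hdc
      have : u = v := by omega
      rw [this, hvc]

theorem sw_sw (c : ℕ) : sw (sw c) = c := by
  unfold sw; split_ifs <;> omega

theorem sw_inj {a b : ℕ} (h : sw a = sw b) : a = b := by
  rw [← sw_sw a, h, sw_sw]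


theorem agr_sw {S : ℕ} {F : ℕ → ℕ} (hA : Agr F S) (h4 : blk S 4 = blk S 5)
    (h10 : blk S 10 = blk S 11) : Agr (fun v => sw (F v)) S := by
  have e1 : ∀ u < 512, S.testBit (512 * 4 + u) = S.testBit (512 * 5 + u) := by
    intro u hu
    have h := congrArg (fun x => Nat.testBit x u) h4
    simpa [testBit_blk, hu] using h
  have e2 : ∀ u < 512, S.testBit (3072 + 512 * 4 + u) = S.testBit (3072 + 512 * 5 + u) := by
    intro u hu
    have h := congrArg (fun x => Nat.testBit x u) h10
    simpa [testBit_blk, hu] using h
  constructor
  · intro v c hc hv h hcon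
    change sw (F v) = c at hcon
    have hFv : F v = sw c := by rw [← hcon, sw_sw]
    by_cases hc4 : c = 4
    · subst hc4
      rw [e1 v hv] at h
      exact hA.1 v 5 (by norm_num) hv h (by rw [hFv]; rfl)
    · by_cases hc5 : c = 5
      · subst hc5
        rw [← e1 v hv] at h
        exact hA.1 v 4 (by norm_num) hv h (by rw [hFv]; rfl)
      · have : sw c = c := by unfold sw; rw [if_neg hc4, if_neg hc5]
        exact hA.1 v c hc hv h (by rw [hFv, this])
  · intro v c hc hv h
    change sw (F v) = c
    by_cases hc4 : c = 4
    · subst hc4
      rw [e2 v hv] at h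
      rw [hA.2 v 5 (by norm_num) hv h]; rfl
    · by_cases hc5 : c = 5
      · subst hc5
        rw [← e2 v hv] at h
        rw [hA.2 v 4 (by norm_num) hv h]; rfl
      · have : sw c = c := by unfold sw; rw [if_neg hc4, if_neg hc5]
        rw [hA.2 v c hc hv h, this]

theorem pushc_sub {S a v c x : ℕ} {st : List ℕ} {T : ℕ} (h : T ∈ st) :
    T ∈ pushc S a v c x st := by
  unfold pushc
  cases Nat.beq (Nat.land (Nat.shiftRight x (Nat.mul 512 c)) 1) 1 with
  | true => exact h
  | false => exact List.mem_cons_of_mem _ h

theorem pushc_new {S a v c : ℕ} {st : List ℕ} :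
    S.testBit (512 * c + v) = true ∨ asg S a v c ∈ pushc S a v c (Nat.shiftRight S v) st := by
  unfold pushc
  by_cases hb : Nat.beq (Nat.land (Nat.shiftRight (Nat.shiftRight S v) (Nat.mul 512 c)) 1) 1 = true
  · left
    have h := Nat.eq_of_beq_eq_true hb
    change ((S >>> v) >>> (512 * c)) &&& 1 = 1 at h
    have h2 := congrArg (fun y => Nat.testBit y 0) h
    simp only [Nat.testBit_and, Nat.testBit_shiftRight] at h2
    have h3 : Nat.testBit 1 0 = true := by decide
    rw [h3, Bool.and_true] at h2
    rw [show 512 * c + v = v + (512 * c + 0) by ring]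
    exact h2
  · right
    rw [Bool.not_eq_true] at hb
    rw [hb]
    exact List.mem_cons_self

theorem testBit_KK (c : ℕ) (hc : c < 6) : KK.testBit (512 * c) = true := by
  have : ∀ c : Fin 6, KK.testBit (512 * c.val) = true := by decide +kernel
  exact this ⟨c, hc⟩

theorem forced_agr {B H S v c : ℕ} {F : ℕ → ℕ} (hF : Cls B H F) (hA : Agr F S) (hv : v < 512)
    (hc : c < 6)
    (h : Nat.lor (Nat.land (Nat.shiftRight S v) KK) (Nat.pow 2 (Nat.mul 512 c)) = KK) :
    F v = c := by
  by_contra hne
  have hlt := hF.1 v
  have h1 := testBit_KK (F v) hlt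
  rw [← h] at h1
  change (((S >>> v) &&& KK) ||| (2 ^ (512 * c))).testBit (512 * F v) = true at h1
  rw [Nat.testBit_or, Nat.testBit_and, Nat.testBit_shiftRight, Nat.testBit_two_pow,
    Bool.or_eq_true, Bool.and_eq_true] at h1
  rcases h1 with ⟨h1, -⟩ | h1
  · rw [Nat.add_comm] at h1
    exact hA.1 v (F v) hlt hv h1 rfl
  · have := of_decide_eq_true h1
    omega

theorem nogood_agr {B H S h w d : ℕ} {F : ℕ → ℕ} (hF : Cls B H F) (hA : Agr F S) (hh : h < 512)
    (hw : w < 512) (hd : d < 6)
    (hm : Nat.lor (Nat.pow 2 w) (Nat.land (blk H h) (blk S (Nat.add 6 d))) = blk H h) :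
    Agr F (Nat.lor S (Nat.shiftLeft 1 (Nat.add (Nat.mul 512 d) w))) := by
  have key : F w ≠ d := by
    intro hwd
    have hm' : ∀ u, (blk H h).testBit u = (decide (w = u) || ((blk H h).testBit u && (blk S (6 + d)).testBit u)) := by
      intro u
      conv_lhs => rw [← hm]
      change ((2 ^ w) ||| (blk H h &&& blk S (6 + d))).testBit u = _
      rw [Nat.testBit_or, Nat.testBit_and, Nat.testBit_two_pow]
    have hbw : (blk H h).testBit w = true := by rw [hm' w]; simp
    refine hF.2.2 h w hh hw hbw fun u hu hbu => ?_
    rw [hm' u, Bool.or_eq_true, Bool.and_eq_true] at hbu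
    rcases hbu with hbu | ⟨-, hbu⟩
    · rw [of_decide_eq_true hbu]
    · rw [testBit_blk, Bool.and_eq_true] at hbu
      rw [hwd]
      refine hA.2 u d hd hu ?_
      rw [show 3072 + 512 * d + u = 512 * (6 + d) + u by ring]
      exact hbu.2
  have tb : ∀ j, (Nat.lor S (Nat.shiftLeft 1 (Nat.add (Nat.mul 512 d) w))).testBit j = true →
      S.testBit j = true ∨ j = 512 * d + w := by
    intro j hj
    change (S ||| (1 <<< (512 * d + w))).testBit j = true at hj
    rw [Nat.testBit_or, Nat.testBit_shiftLeft, Bool.or_eq_true, Bool.and_eq_true] at hj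
    rcases hj with hj | ⟨hj1, hj2⟩
    · exact Or.inl hj
    · have h1 := of_decide_eq_true hj1
      have h2 := testBit_one' _ hj2
      right; omega
  constructor
  · intro u c hc hu hb
    rcases tb _ hb with hb | hb
    · exact hA.1 u c hc hu hb
    · have h1 : c = d := by omega
      have h2 : u = w := by omega
      rw [h1, h2]; exact key
  · intro u c hc hu hb
    rcases tb _ hb with hb | hb
    · exact hA.2 u c hc hu hb
    · omega

theorem run_sound (B H : ℕ) (G : (ℕ → ℕ) → Prop) (hG : ∀ F, G F → Cls B H F)
    (hsw : ∀ F, G F → G (fun v => sw (F v))) (fuel : ℕ) : ∀ (tok : ℕ) (st : List ℕ),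
    (∀ S ∈ run B H fuel tok st, Ref G S) → ∀ S ∈ st, Ref G S := by
  induction fuel with
  | zero => intro tok st h; exact h
  | succ n ih =>
    intro tok st h
    cases st with
    | nil => intro S hS; exact absurd hS List.not_mem_nil
    | cons S rest =>
      change ∀ S' ∈ (force (Nat.mod tok 4096) fun t =>
          force (Nat.shiftRight tok 12) fun tok' =>
          force (Nat.div t 8) fun v =>
          force (Nat.mod t 8) fun c =>
          cond (Nat.ble 6 c)
            (cond (Nat.beq c 6)
              (force (Nat.shiftRight S v) fun x =>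
                force (blk B v) fun a =>
                run B H n tok' (pushc S a v 0 x (pushc S a v 1 x (pushc S a v 2 x (pushc S a v 3 x
                  (pushc S a v 4 x
                    (cond (cond (Nat.beq (blk S 4) (blk S 5))
                        (Nat.beq (blk S 10) (blk S 11)) false) rest (pushc S a v 5 x rest))))))))
              (force (Nat.mod tok' 4096) fun u =>
                force (Nat.div u 8) fun w =>
                force (Nat.mod u 8) fun d =>
                force (blk H v) fun m =>
                cond (Nat.beq (Nat.lor (Nat.pow 2 w) (Nat.land m (blk S (Nat.add 6 d)))) m)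
                  (cond (Nat.ble 6 d) (S :: rest)
                  (run B H n (Nat.shiftRight tok' 12)
                    (Nat.lor S (Nat.shiftLeft 1 (Nat.add (Nat.mul 512 d) w)) :: rest))) (S :: rest)))
            (cond (Nat.beq (Nat.lor (Nat.land (Nat.shiftRight S v) KK) (Nat.pow 2 (Nat.mul 512 c))) KK)
              (force (asg S (blk B v) v c) fun S' => run B H n tok' (S' :: rest)) (S :: rest))),
          Ref G S' at h
      simp only [force_eq] at h
      have hv : Nat.div (Nat.mod tok 4096) 8 < 512 := by
        change tok % 4096 / 8 < 512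
        omega
      have hw : Nat.div (Nat.mod (Nat.shiftRight tok 12) 4096) 8 < 512 := by
        change (Nat.shiftRight tok 12) % 4096 / 8 < 512
        omega
      generalize Nat.div (Nat.mod tok 4096) 8 = v at h hv
      generalize hcdef : Nat.mod (Nat.mod tok 4096) 8 = c at h
      generalize Nat.div (Nat.mod (Nat.shiftRight tok 12) 4096) 8 = w at h hw
      generalize Nat.mod (Nat.mod (Nat.shiftRight tok 12) 4096) 8 = d at h
      generalize Nat.shiftRight tok 12 = tok' at h
      by_cases h6 : Nat.ble 6 c = true
      · rw [h6, cond_true] at h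
        by_cases hc6 : Nat.beq c 6 = true
        · rw [hc6, cond_true] at h
          have h := ih _ _ h
          -- branch
          have hrest : ∀ T ∈ rest, Ref G T := by
            intro T hT
            refine h T (pushc_sub (pushc_sub (pushc_sub (pushc_sub (pushc_sub ?_)))))
            cases (cond (Nat.beq (blk S 4) (blk S 5)) (Nat.beq (blk S 10) (blk S 11)) false) with
            | true => exact hT
            | false => exact pushc_sub hT
          intro T hT
          rcases List.mem_cons.1 hT with rfl | hT
          swap
          · exact hrest T hT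
          have hchild : ∀ F, G F → Agr F T → F v < 5 → False := by
            intro F hGF hA hlt
            have hF := hG F hGF
            have gen : ∀ c, c < 6 → F v = c →
                (T.testBit (512 * c + v) = true ∨ Ref G (asg T (blk B v) v c)) → False := by
              intro c hc hFc hor
              rcases hor with hor | hor
              · exact hA.1 v c hc hv hor hFc
              · exact hor F hGF (asg_agr hF hA hv hc hFc)
            obtain h0 | h0 | h0 | h0 | h0 : F v = 0 ∨ F v = 1 ∨ F v = 2 ∨ F v = 3 ∨ F v = 4 := by
              omega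
            · exact gen 0 (by norm_num) h0 (pushc_new.imp id fun h' => h _ h')
            · exact gen 1 (by norm_num) h0 (pushc_new.imp id fun h' => h _ (pushc_sub h'))
            · exact gen 2 (by norm_num) h0 (pushc_new.imp id fun h' => h _ (pushc_sub (pushc_sub h')))
            · exact gen 3 (by norm_num) h0
                (pushc_new.imp id fun h' => h _ (pushc_sub (pushc_sub (pushc_sub h'))))
            · exact gen 4 (by norm_num) h0
                (pushc_new.imp id fun h' => h _ (pushc_sub (pushc_sub (pushc_sub (pushc_sub h')))))
          intro F hGF hA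
          have hF := hG F hGF
          by_cases h5 : F v < 5
          · exact hchild F hGF hA h5
          have hF5 : F v = 5 := by have := hF.1 v; omega
          by_cases hs : (cond (Nat.beq (blk T 4) (blk T 5)) (Nat.beq (blk T 10) (blk T 11)) false) = true
          · have hs1 : Nat.beq (blk T 4) (blk T 5) = true := by
              cases hb : Nat.beq (blk T 4) (blk T 5) with
              | true => rfl
              | false => rw [hb] at hs; exact hs
            have hs2 : Nat.beq (blk T 10) (blk T 11) = true := by
              rw [hs1] at hs; exact hs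
            refine hchild _ (hsw F hGF) (agr_sw hA (Nat.eq_of_beq_eq_true hs1)
              (Nat.eq_of_beq_eq_true hs2)) ?_
            change sw (F v) < 5
            rw [hF5]; decide
          · rw [Bool.not_eq_true] at hs
            rw [hs, cond_false] at h
            have h' : T.testBit (512 * 5 + v) = true ∨ Ref G (asg T (blk B v) v 5) :=
              pushc_new.imp id fun h' => h _ (pushc_sub (pushc_sub (pushc_sub (pushc_sub
                (pushc_sub h')))))
            rcases h' with h' | h'
            · exact hA.1 v 5 (by norm_num) hv h' hF5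
            · exact h' F hGF (asg_agr hF hA hv (by norm_num) hF5)
        · rw [Bool.not_eq_true] at hc6
          rw [hc6, cond_false] at h
          by_cases hm : Nat.beq (Nat.lor (Nat.pow 2 w) (Nat.land (blk H v)
              (blk S (Nat.add 6 d)))) (blk H v) = true
          · rw [hm, cond_true] at h
            by_cases hd : Nat.ble 6 d = true
            · rw [hd, cond_true] at h; exact h
            · have hd' : d < 6 := by
                by_contra hcon
                exact hd (Nat.ble_eq_true_of_le (by omega))
              rw [Bool.not_eq_true] at hd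
              rw [hd, cond_false] at h
              have h := ih _ _ h
              intro T hT
              rcases List.mem_cons.1 hT with rfl | hT
              · intro F hGF hA
                have hF := hG F hGF
                exact h _ List.mem_cons_self F hGF
                  (nogood_agr hF hA hv hw hd' (Nat.eq_of_beq_eq_true hm))
              · exact h T (List.mem_cons_of_mem _ hT)
          · rw [Bool.not_eq_true] at hm
            rw [hm, cond_false] at h
            exact h
      · have hc' : c < 6 := by
          by_contra hcon
          exact h6 (Nat.ble_eq_true_of_le (by omega))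
        rw [Bool.not_eq_true] at h6
        rw [h6, cond_false] at h
        by_cases hk : Nat.beq (Nat.lor (Nat.land (Nat.shiftRight S v) KK)
            (Nat.pow 2 (Nat.mul 512 c))) KK = true
        · rw [hk, cond_true] at h
          have h := ih _ _ h
          intro T hT
          rcases List.mem_cons.1 hT with rfl | hT
          · intro F hGF hA
            have hF := hG F hGF
            have hFc := forced_agr hF hA hv hc' (Nat.eq_of_beq_eq_true hk)
            exact h _ List.mem_cons_self F hGF (asg_agr hF hA hv hc' hFc)
          · exact h T (List.mem_cons_of_mem _ hT)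
        · rw [Bool.not_eq_true] at hk
          rw [hk, cond_false] at h
          exact h

theorem runs_sound (B H : ℕ) (G : (ℕ → ℕ) → Prop) (hG : ∀ F, G F → Cls B H F)
    (hsw : ∀ F, G F → G (fun v => sw (F v))) (l : List (ℕ × ℕ)) : ∀ (st : List ℕ),
    (∀ S ∈ runs B H l st, Ref G S) → ∀ S ∈ st, Ref G S := by
  induction l with
  | nil => intro st h; exact h
  | cons c l ih =>
    intro st h
    have h' : ∀ S ∈ runs B H l (run B H c.1 c.2 st), Ref G S := h
    exact run_sound B H G hG hsw c.1 c.2 st (ih _ h')

/-- Comparison of lists. -/
def eqList : List ℕ → List ℕ → Bool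
  | [], [] => true
  | a :: l, b :: m => cond (Nat.beq a b) (eqList l m) false
  | _, _ => false

theorem eq_of_eqList : ∀ (l m : List ℕ), eqList l m = true → l = m
  | [], [], _ => rfl
  | a :: l, b :: m, h => by
    unfold eqList at h
    by_cases hb : Nat.beq a b = true
    · rw [hb, cond_true] at h
      rw [Nat.eq_of_beq_eq_true hb, eq_of_eqList l m h]
    · rw [Bool.not_eq_true] at hb
      rw [hb, cond_false] at h
      exact Bool.noConfusion h
  | [], _ :: _, h => by unfold eqList at h; exact Bool.noConfusion h
  | _ :: _, [], h => by unfold eqList at h; exact Bool.noConfusion h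

end Pool.Agent.Helper438.Sph
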