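import Pool.Agent.Helper438.Sph.Pat

set_option autoImplicit false
set_option maxRecDepth 100000

namespace Pool.Agent.Helper438.Sph

/-- stack -/
def stFin_0 : List ℕ := [0x8000000000000000000000000000000000000000000000000000000000000000000000000000000000000000000000000000000000000000000000000000000040000000000000000000000000000000000000000000000000000000000000000000000000000000000000000000000000000000000000000000000000000000200000000000000000000000000000000000000000000000000000000000000000000000000000000000000000000000000000000000000000000000000000001000000000000000000000000000000000000000000000000000000000000000000000000000000000000000000000000000000000000000000000000000000000000000000000000000000000000000000000000000000000000000000000000000000000000000000000000000000000000000000000000000000000000000000000000000000000000000000000000000000000000000000000000000000000000000000000000000fff000000000fff00000000000000000fff000f0003f7000000000000000000000000000000000000000000000000000f000000000000000000000000ff0000000000ff000f0000000000000f000ff000000f0000783b0000000000000000000000000000000000000000000000000060600000000000000000060006006000600066006660600000000000606660066000606000b58d0000000000000000000000000000000000000000000000000090900000000000000000090009009000900099009990900000000000909990099000909000ce4e]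

/-- stack -/
def stFin_1 : List ℕ := []


end Pool.Agent.Helper438.Sph
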